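import Pool.Agent.L7h81.Pz.Rep

set_option autoImplicit false

/-!
# The relation of one column, uniformly in the type of the element `Γ`
-/

namespace Pool.Agent.L7h81.Pm

open Matrix Real Pool.Agent.L7h81.Pz

/-- The product at the end of a column. -/
def RR {G : Type*} [Group G] (l : ℤ) (a b : G) : G := (a * b⁻¹) ^ (-l) * b * (a * b⁻¹) ^ l * a

theorem RR_swap {G : Type*} [Group G] (l : ℤ) (a b : G) : RR (-l - 1) a b = RR l b a := by
  unfold RR
  obtain ⟨X, rfl⟩ : ∃ X, a = X * b := ⟨a * b⁻¹, by group⟩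
  have e1 : X * b * b⁻¹ = X := by group
  have e2 : b * (X * b)⁻¹ = X⁻¹ := by group
  rw [e1, e2]
  group

theorem RR_conj {G : Type*} [Group G] (l : ℤ) (g a b : G) :
    RR l (g * a * g⁻¹) (g * b * g⁻¹) = g * RR l a b * g⁻¹ := by
  unfold RR
  have e3 : g * a * g⁻¹ * (g * b * g⁻¹)⁻¹ = g * (a * b⁻¹) * g⁻¹ := by group
  rw [e3, conj_zpow, conj_zpow]
  group

section ring
variable {R : Type*} [Ring R] [Algebra ℝ R] {K D : R} {c : ℝ}

theorem kd_sq (hK : K * K = c • K - 1) (hD : D * D = 1) (hKD : D * K = c • D - K * D) :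
    (K * D) * (K * D) = 1 := by
  calc (K * D) * (K * D) = K * (D * K) * D := by simp only [mul_assoc]
    _ = c • (K * (D * D)) - K * K * (D * D) := by
        rw [hKD]; simp only [mul_sub, sub_mul, mul_smul_comm, smul_mul_assoc, mul_assoc]
    _ = 1 := by rw [hD, hK, mul_one, mul_one]; abel

theorem kd_k (hK : K * K = c • K - 1) (hKD : D * K = c • D - K * D) :
    (K * D) * K = D := by
  calc (K * D) * K = K * (D * K) := by simp only [mul_assoc]
    _ = c • (K * D) - K * K * D := by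
        rw [hKD]; simp only [mul_sub, mul_smul_comm, mul_assoc]
    _ = D := by rw [hK, sub_mul, smul_mul_assoc, one_mul]; abel

omit [Algebra ℝ R] in
theorem kd_d (hD : D * D = 1) : (K * D) * D = K := by
  rw [mul_assoc, hD, mul_one]

/-- The one-parameter group. -/
noncomputable def PP (E : R) (a : ℝ) : R := cosh a • (1 : R) + sinh a • E

theorem PP_mul {E : R} (hE : E * E = 1) (a b : ℝ) : PP E a * PP E b = PP E (a + b) := by
  unfold PP
  rw [cosh_add, sinh_add]
  simp only [mul_add, add_mul, mul_smul_comm, smul_mul_assoc, one_mul, mul_one, hE]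
  module

theorem PP_zero (E : R) : PP E 0 = 1 := by simp [PP]

theorem PP_pow {E : R} (hE : E * E = 1) (a : ℝ) (l : ℕ) : PP E a ^ l = PP E (l * a) := by
  induction l with
  | zero => simp [PP_zero]
  | succ l ih => rw [pow_succ, ih, PP_mul hE]; congr 1; push_cast; ring

theorem PP_K {y a : ℝ} (h1 : (K * D) * K = D) (h2 : (K * D) * D = K) :
    PP (K * D) a * (cosh y • K + sinh y • D) = cosh (a + y) • K + sinh (a + y) • D := by
  unfold PP
  rw [cosh_add, sinh_add]
  simp only [mul_add, add_mul, mul_smul_comm, smul_mul_assoc, one_mul, h1, h2]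
  module

end ring

/-- Two by two matrices. -/
abbrev Mat : Type := Matrix (Fin 2) (Fin 2) ℝ

theorem coe_pow_slr (X : SLR) (l : ℕ) : ((X ^ l : SLR) : Mat) = (X : Mat) ^ l := by
  induction l with
  | zero => rw [pow_zero, pow_zero]; rfl
  | succ l ih => rw [pow_succ, pow_succ, ← ih]; rfl

theorem RR_mat (A B : SLR) (l : ℕ) {C y : ℝ} (hy : 0 < y)
    (hA : (A : Mat) * (A : Mat) = (2 * C) • (A : Mat) - 1)
    (hB : (B : Mat) * (B : Mat) = (2 * C) • (B : Mat) - 1)
    (hAB : (A : Mat) * (B : Mat) + (B : Mat) * (A : Mat) =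
      (2 * C) • ((A : Mat) + (B : Mat)) - (2 * cosh (2 * y)) • (1 : Mat)) :
    ((RR (l : ℤ) A B : SLR) : Mat) =
      (cosh ((2 * l + 1) * y) ^ 2 * (C / cosh y ^ 2)) • ((A : Mat) + (B : Mat)) -
      (cosh ((2 * l + 1) * y) ^ 2 + sinh ((2 * l + 1) * y) ^ 2) • (1 : Mat) +
      (cosh ((2 * l + 1) * y) * sinh ((2 * l + 1) * y) / (2 * sinh y * cosh y)) •
        ((B : Mat) * (A : Mat) - (A : Mat) * (B : Mat)) := by
  have hch := cosh_pos y
  have hsh : 0 < sinh y := sinh_pos_iff.2 hy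
  have hcs := cosh_sq y
  have hc2 : cosh (2 * y) = 2 * cosh y ^ 2 - 1 := by rw [cosh_two_mul, hcs]; ring
  set K : Mat := (1 / (2 * cosh y)) • ((A : Mat) + (B : Mat)) with hKd
  set D : Mat := (1 / (2 * sinh y)) • ((A : Mat) - (B : Mat)) with hDd
  have hBA : (B : Mat) * (A : Mat) = (2 * C) • ((A : Mat) + (B : Mat)) -
      (2 * cosh (2 * y)) • (1 : Mat) - (A : Mat) * (B : Mat) := by rw [← hAB]; abel
  have hKK : K * K = (2 * C / cosh y) • K - 1 := by
    rw [hKd]
    simp only [mul_smul_comm, smul_mul_assoc, mul_add, add_mul, smul_smul, hA, hB, hBA]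
    rw [hc2]
    match_scalars <;> field_simp <;> ring
  have hDD : D * D = 1 := by
    rw [hDd]
    simp only [mul_smul_comm, smul_mul_assoc, mul_sub, sub_mul, smul_smul, hA, hB, hBA]
    rw [hc2]
    match_scalars <;> field_simp <;> nlinarith
  have hDK : D * K = (2 * C / cosh y) • D - K * D := by
    rw [hKd, hDd]
    simp only [mul_smul_comm, smul_mul_assoc, mul_sub, sub_mul, mul_add, add_mul, hA, hB, hBA]
    rw [hc2]
    match_scalars <;> field_simp <;> ring
  have h1 := kd_k hKK hDK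
  have h2 := kd_d (K := K) hDD
  have hE := kd_sq hKK hDD hDK
  have hAK : (A : Mat) = cosh y • K + sinh y • D := by
    rw [hKd, hDd]; match_scalars <;> field_simp <;> ring
  have hBK : (B : Mat) = cosh (-y) • K + sinh (-y) • D := by
    rw [hKd, hDd, cosh_neg, sinh_neg]; match_scalars <;> field_simp <;> ring
  set E : Mat := K * D with hEd
  have hXB : PP E (2 * y) * (B : Mat) = (A : Mat) := by
    rw [hBK, PP_K h1 h2, hAK]
    congr 3 <;> ring
  have hX : ((A * B⁻¹ : SLR) : Mat) = PP E (2 * y) := by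
    have e1 : (B : Mat) * ((B⁻¹ : SLR) : Mat) = 1 := by
      have : B * B⁻¹ = 1 := mul_inv_cancel B
      exact congrArg Subtype.val this
    show (A : Mat) * ((B⁻¹ : SLR) : Mat) = _
    rw [← hXB, mul_assoc, e1, mul_one]
  have hXl : (((A * B⁻¹) ^ (l : ℤ) : SLR) : Mat) = PP E (2 * l * y) := by
    have e0 : (A * B⁻¹) ^ (l : ℤ) = (A * B⁻¹) ^ l := zpow_natCast _ l
    rw [e0, coe_pow_slr, hX, PP_pow hE]
    congr 1; ring
  have hXn : (((A * B⁻¹) ^ (-(l : ℤ)) : SLR) : Mat) = PP E (-(2 * l * y)) := by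
    have e1 : (A * B⁻¹) ^ (-(l : ℤ)) * (A * B⁻¹) ^ (l : ℤ) = 1 := by
      rw [← _root_.zpow_add, neg_add_cancel, _root_.zpow_zero]
    have e2 : (((A * B⁻¹) ^ (-(l : ℤ)) : SLR) : Mat) * (((A * B⁻¹) ^ (l : ℤ) : SLR) : Mat) = 1 :=
      congrArg Subtype.val e1
    rw [hXl] at e2
    calc (((A * B⁻¹) ^ (-(l : ℤ)) : SLR) : Mat)
        = (((A * B⁻¹) ^ (-(l : ℤ)) : SLR) : Mat) * (PP E (2 * l * y) * PP E (-(2 * l * y))) := by
          rw [PP_mul hE, add_neg_cancel, PP_zero, mul_one]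
      _ = _ := by rw [← mul_assoc, e2, one_mul]
  have e3 : PP E (-(2 * l * y)) * (B : Mat) =
      cosh ((2 * l + 1) * y) • K - sinh ((2 * l + 1) * y) • D := by
    rw [hBK, PP_K h1 h2]
    have : -(2 * l * y) + -y = -((2 * l + 1) * y) := by ring
    rw [this, cosh_neg, sinh_neg, neg_smul, sub_eq_add_neg]
  have e4 : PP E (2 * l * y) * (A : Mat) =
      cosh ((2 * l + 1) * y) • K + sinh ((2 * l + 1) * y) • D := by
    rw [hAK, PP_K h1 h2]
    have : 2 * l * y + y = (2 * l + 1) * y := by ring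
    rw [this]
  have e5 : ((RR (l : ℤ) A B : SLR) : Mat) =
      (PP E (-(2 * l * y)) * (B : Mat)) * (PP E (2 * l * y) * (A : Mat)) := by
    rw [← hXl, ← hXn, ← mul_assoc]
    rfl
  rw [e5, e3, e4]
  set x := cosh ((2 * l + 1) * y)
  set sx := sinh ((2 * l + 1) * y)
  simp only [mul_add, sub_mul, mul_smul_comm, smul_mul_assoc, hKK, hDD, hDK]
  have e6 : K * D - D * K = (1 / (2 * sinh y * cosh y)) •
      ((B : Mat) * (A : Mat) - (A : Mat) * (B : Mat)) := by
    rw [hKd, hDd]
    simp only [mul_smul_comm, smul_mul_assoc, mul_sub, sub_mul, mul_add, add_mul, hA, hB, hBA]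
    rw [hc2]
    match_scalars <;> field_simp <;> ring
  rw [hDK] at e6
  have e7 : (B : Mat) * (A : Mat) - (A : Mat) * (B : Mat) =
      (2 * sinh y * cosh y) • (K * D - ((2 * C / cosh y) • D - K * D)) := by
    rw [e6, smul_smul]
    have : 2 * sinh y * cosh y * (1 / (2 * sinh y * cosh y)) = 1 := by field_simp
    rw [this, one_smul]
  have e8 : (A : Mat) + (B : Mat) = (2 * cosh y) • K := by
    rw [hKd, smul_smul]
    have : 2 * cosh y * (1 / (2 * cosh y)) = 1 := by field_simp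
    rw [this, one_smul]
  rw [e7, e8, ← hEd]
  match_scalars <;> field_simp <;> ring

end Pool.Agent.L7h81.Pm
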