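import Pool.Agent.L7h81.Pm.Alg

set_option autoImplicit false

/-!
# The relation of one column in coordinates
-/

namespace Pool.Agent.L7h81.Pm

open Matrix Real Pool.Agent.L7h81.Pz

/-- The elliptic element at the first place. -/
noncomputable def AA (C S : ℝ) (h : C ^ 2 + S ^ 2 = 1) : SLR := ⟨!![C, -S; S, C], by
  rw [Matrix.det_fin_two_of]; linear_combination h⟩

/-- The element `(1 - τ G) / √(1 + τ ^ 2 (κ ^ 2 - ρ ^ 2))`, `G = !![ρ, -κ; κ, -ρ]`. -/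
noncomputable def UU (κ ρ τ : ℝ) (hq : 0 < 1 + τ ^ 2 * (κ ^ 2 - ρ ^ 2)) : SLR :=
  ⟨!![(1 - τ * ρ) / √(1 + τ ^ 2 * (κ ^ 2 - ρ ^ 2)), τ * κ / √(1 + τ ^ 2 * (κ ^ 2 - ρ ^ 2));
      -(τ * κ) / √(1 + τ ^ 2 * (κ ^ 2 - ρ ^ 2)), (1 + τ * ρ) / √(1 + τ ^ 2 * (κ ^ 2 - ρ ^ 2))], by
    rw [Matrix.det_fin_two_of]
    have h := Real.sq_sqrt hq.le
    have h0 : √(1 + τ ^ 2 * (κ ^ 2 - ρ ^ 2)) ≠ 0 := (Real.sqrt_pos.2 hq).ne'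
    field_simp
    rw [h]; ring⟩

theorem UU_neg (κ ρ τ : ℝ) (hq : 0 < 1 + τ ^ 2 * (κ ^ 2 - ρ ^ 2))
    (hq' : 0 < 1 + (-τ) ^ 2 * (κ ^ 2 - ρ ^ 2)) : UU κ ρ (-τ) hq' = (UU κ ρ τ hq)⁻¹ := by
  rw [eq_inv_iff_mul_eq_one]
  apply Subtype.ext
  have h := Real.sq_sqrt hq.le
  have h0 : √(1 + τ ^ 2 * (κ ^ 2 - ρ ^ 2)) ≠ 0 := (Real.sqrt_pos.2 hq).ne'
  show !![_, _; _, _] * !![_, _; _, _] = (1 : Matrix (Fin 2) (Fin 2) ℝ)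
  simp only [neg_sq]
  rw [Matrix.mul_fin_two, Matrix.one_fin_two]
  ext i j
  fin_cases i <;> fin_cases j <;> simp <;> field_simp <;> (try rw [h]) <;> ring

/-- `Γ = (1 - 2 p) + 2 p G`. -/
noncomputable def Gm (κ ρ p : ℝ) : Mat :=
  !![1 - 2 * p + 2 * p * ρ, -(2 * p * κ); 2 * p * κ, 1 - 2 * p - 2 * p * ρ]

theorem UU_comm (κ ρ τ p : ℝ) (hq : 0 < 1 + τ ^ 2 * (κ ^ 2 - ρ ^ 2)) :
    (UU κ ρ τ hq : Mat) * Gm κ ρ p = Gm κ ρ p * (UU κ ρ τ hq : Mat) := by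
  show !![_, _; _, _] * !![_, _; _, _] = !![_, _; _, _] * !![_, _; _, _]
  rw [Matrix.mul_fin_two, Matrix.mul_fin_two]
  ext i j
  fin_cases i <;> fin_cases j <;> simp <;> ring

/-- The second element. -/
noncomputable def Bm (C S κ ρ τ q : ℝ) : Mat :=
  !![C + S * (2 * τ ^ 2 * κ * ρ) / q, S * (-(1 + τ ^ 2 * (κ ^ 2 + ρ ^ 2)) + 2 * τ * ρ) / q;
    S * (1 + τ ^ 2 * (κ ^ 2 + ρ ^ 2) + 2 * τ * ρ) / q, C - S * (2 * τ ^ 2 * κ * ρ) / q]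

theorem UAU (C S κ ρ τ : ℝ) (h : C ^ 2 + S ^ 2 = 1) (hq : 0 < 1 + τ ^ 2 * (κ ^ 2 - ρ ^ 2)) :
    ((UU κ ρ τ hq * AA C S h * (UU κ ρ τ hq)⁻¹ : SLR) : Mat) =
      Bm C S κ ρ τ (1 + τ ^ 2 * (κ ^ 2 - ρ ^ 2)) := by
  have key : Bm C S κ ρ τ (1 + τ ^ 2 * (κ ^ 2 - ρ ^ 2)) * (UU κ ρ τ hq : Mat) =
      (UU κ ρ τ hq : Mat) * (AA C S h : Mat) := by
    have h0 : √(1 + τ ^ 2 * (κ ^ 2 - ρ ^ 2)) ≠ 0 := (Real.sqrt_pos.2 hq).ne'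
    have hq0 := hq.ne'
    show !![_, _; _, _] * !![_, _; _, _] = !![_, _; _, _] * !![_, _; _, _]
    rw [Matrix.mul_fin_two, Matrix.mul_fin_two]
    ext i j
    fin_cases i <;> fin_cases j <;> simp <;> field_simp <;> ring
  have e1 : (UU κ ρ τ hq : Mat) * (((UU κ ρ τ hq)⁻¹ : SLR) : Mat) = 1 := by
    have : UU κ ρ τ hq * (UU κ ρ τ hq)⁻¹ = 1 := mul_inv_cancel _
    exact congrArg Subtype.val this
  show (UU κ ρ τ hq : Mat) * (AA C S h : Mat) * (((UU κ ρ τ hq)⁻¹ : SLR) : Mat) = _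
  rw [← key, mul_assoc, e1, mul_one]

end Pool.Agent.L7h81.Pm
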