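import Pool.Agent.L7h81.Pz.Solve

set_option autoImplicit false

/-!
# Project PM: cyclic branched covers of pretzel links with odd columns of arbitrary signs

For `m_j = ε_j (2 l_j + 1)`, `κ = cot (π/n) = C / S`, `F = ∑ ε_j arctan (κ / (2 l_j + 1))`: the `n`-fold cyclic branched cover
has a nontrivial action on the line if `F > π`, or if `F > 0 > ∑ ε_j / (2 l_j + 1)`.

The parameter is `p > S ^ 2`, `w = (1 - p) / p` (negative for `p > 1`), `y_j = yy l_j p` the solution of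
`(1 - (C / cosh y) ^ 2) cosh ((2 l + 1) y) ^ 2 = p`, `t_j = tanh y_j / tanh ((2 l_j + 1) y_j)`, `τ_j = ε_j t_j`,
and `ab w τ i = (a, b)` with `a + b g = ∏_{j < i} (1 - τ_j g)` in `ℝ[g] / (g ^ 2 + w)`.
We need a `p` with `b = 0` for `i = k`.
-/

namespace Pool.Agent.L7h81.Pm

open Real Pool.Agent.L7h81.Pz

/-- `tanh y / tanh ((2 l + 1) y)` -/
noncomputable def tt (l : ℕ) (y : ℝ) : ℝ :=
  (sinh y * cosh ((2 * l + 1) * y)) / (cosh y * sinh ((2 * l + 1) * y))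

/-- `a + b g = ∏_{j < i} (1 - τ_j g)`, `g ^ 2 = -w` -/
noncomputable def ab (w : ℝ) (τ : ℕ → ℝ) : ℕ → ℝ × ℝ
  | 0 => (1, 0)
  | i + 1 => ((ab w τ i).1 + (ab w τ i).2 * τ i * w, (ab w τ i).2 - (ab w τ i).1 * τ i)

/-- the numbers `τ_j` -/
noncomputable def ta {C S : ℝ} (hC : 0 < C) (hS : 0 < S) (h1 : C ^ 2 + S ^ 2 = 1) (l : ℕ → ℕ) (ε : ℕ → ℝ)
    (p : ℝ) (i : ℕ) : ℝ := ε i * tt (l i) (yy hC hS h1 (l i) p)

/-- **HIGH**: for large `p` the number `b` is positive if `∑ ε_j / (2 l_j + 1) < 0`.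

Proof.  Let `p > 1`, `w = - s ^ 2`, `s = √((p - 1) / p) ∈ (0, 1)`.  (1) `a + b s = ∏ (1 - τ_j s)` and
`a - b s = ∏ (1 + τ_j s)` (induction).  So `b > 0` iff `∏ (1 - τ_j s) > ∏ (1 + τ_j s)`.  With `0 < t_j ≤ 1` (`1 / (2 l + 1) ≤ t`:
`sinh_cosh_le`, `sinh_cosh_le'` in `Pz/Solve.lean`) and `R_j = (1 + t_j s) / (1 - t_j s)`, this is `∑ ε_j log R_j < 0`.
(2) For one column (`m = 2 l + 1`, `y > 0`, `ch = cosh y`, `x = cosh (m y)`, `p = (1 - C²/ch²) x²`, from `FF_yy`):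
`1 - t² s² = (S² + t² C²) / (ch² - C²)`.  [`t = sinh y x / (ch sinh(m y))`, `1 - t² s² = 1 + t² (1 - p) / p`; multiply by
`p ch²` and use `sinh² = cosh² - 1`.]  So `R = (1 + t s)² / (1 - t² s²) = (1 + t s)² (ch² - C²) / (S² + t² C²)`
is between `S² ch²` and `4 ch² / S²`  (`S² ch² ≤ ch² - C² ≤ ch²`, `S² ≤ S² + t² C² ≤ 1`, `1 ≤ 1 + t s ≤ 2`).
(3) `ch ^ m / 2 ≤ x ≤ (2 ch) ^ m` (`exp (m y) / 2 ≤ cosh (m y) ≤ exp (m y)`, `ch ≤ exp y ≤ 2 ch`) and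
`S² x² ≤ p ≤ x²`.  (4) Taking logarithms, `|log R_j - log p / (2 l_j + 1)| ≤ B_j` with `B_j` independent of `p`
(for example `B = 2 |log S| + 2 log 2 + 2 log 2 + ...`).  So `∑ ε_j log R_j ≤ (∑ ε_j / (2 l_j + 1)) log p + ∑ B_j < 0`
for all large `p`. -/
def S_HIGH : Prop := ∀ (C S : ℝ) (hC : 0 < C) (hS : 0 < S) (h1 : C ^ 2 + S ^ 2 = 1) (k : ℕ) (l : ℕ → ℕ) (ε : ℕ → ℝ),
  (∀ i, ε i = 1 ∨ ε i = -1) → ∑ i ∈ Finset.range k, ε i / (2 * l i + 1) < 0 →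
  ∃ p : ℝ, 1 < p ∧ 0 < (ab ((1 - p) / p) (ta hC hS h1 l ε p) k).2

/-- **LOW**: the interval `(S ^ 2, 1)`.

Proof.  Let `S² < p < 1`, `s = √(1 - p) / √p`, `w = s²`, `Ψ(p) = ∑_{j<k} ε_j arctan (t_j s)` (`arctan (t_j s) = ang l_j s y_j`
of `Pz/Solve.lean`).  (1) Induction on `i` : with `P_i = ∏_{j<i} √(1 + t_j² w) > 0` and the partial sums `Ψ_i`,
`a_i = P_i cos Ψ_i`, `b_i s = - P_i sin Ψ_i`.  So `b_k = 0` if `Ψ = π`, and `b_k < 0` if `0 < Ψ < π`.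
(2) `Ψ` is continuous on `(S², 1)` (proof in `Pz/Solve.lean`, theorem `solve`), `Ψ(p) → 0` for `p → 1`
(`0 < arctan (t_j s) ≤ arctan s`), and `Ψ(p) → F` for `p → S²`, `p > S²` (`arctan (s / (2 l_j + 1)) ≤ arctan (t_j s)`, and
`t_j → 1 / (2 l_j + 1)` because `y_j → 0` (`yy` is continuous with `yy (S²) = 0`) and
`t ≤ cosh ((2 l + 1) y) / (2 l + 1)`, as `sinh (m y) ≥ m sinh y`, `cosh y ≥ 1`; so
`arctan (t_j s)` is squeezed).  (3) If `F > π`: intermediate value theorem.  If `0 < F ≤ π`: there are `p` with `Ψ(p)` as near to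
`F` and to `0` as one likes, so by the intermediate value theorem one with `Ψ(p) = F / 2 ∈ (0, π)`. -/
def S_LOW : Prop := ∀ (C S : ℝ) (hC : 0 < C) (hS : 0 < S) (h1 : C ^ 2 + S ^ 2 = 1) (k : ℕ) (l : ℕ → ℕ) (ε : ℕ → ℝ),
  (∀ i, ε i = 1 ∨ ε i = -1) → 0 < ∑ i ∈ Finset.range k, ε i * arctan (C / S / (2 * l i + 1)) →
  (π < ∑ i ∈ Finset.range k, ε i * arctan (C / S / (2 * l i + 1)) →
    ∃ p : ℝ, S ^ 2 < p ∧ (ab ((1 - p) / p) (ta hC hS h1 l ε p) k).2 = 0) ∧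
  (∑ i ∈ Finset.range k, ε i * arctan (C / S / (2 * l i + 1)) ≤ π →
    ∃ p : ℝ, S ^ 2 < p ∧ p < 1 ∧ (ab ((1 - p) / p) (ta hC hS h1 l ε p) k).2 < 0)

/-- **CONT**: `b` is continuous for `p > S²` (`t_j` is a quotient of continuous functions, `yy > 0`). -/
def S_CONT : Prop := ∀ (C S : ℝ) (hC : 0 < C) (hS : 0 < S) (h1 : C ^ 2 + S ^ 2 = 1) (k : ℕ) (l : ℕ → ℕ) (ε : ℕ → ℝ),
  ContinuousOn (fun p : ℝ => (ab ((1 - p) / p) (ta hC hS h1 l ε p) k).2) (Set.Ioi (S ^ 2))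

end Pool.Agent.L7h81.Pm
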