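import Pool.Agent.L7h81.Pm.Alg2
import Pool.Agent.L7h81.Pm.Stm

set_option autoImplicit false

/-!
# The relation of one column: conclusion
-/

namespace Pool.Agent.L7h81.Pm

open Matrix Real Pool.Agent.L7h81.Pz

theorem cayley (A : SLR) : (A : Mat) * (A : Mat) =
    ((A : Mat) 0 0 + (A : Mat) 1 1) • (A : Mat) - 1 := by
  have h : (A : Mat) 0 0 * (A : Mat) 1 1 - (A : Mat) 0 1 * (A : Mat) 1 0 = 1 := by
    have := A.2
    rwa [Matrix.det_fin_two] at this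
  ext i j
  fin_cases i <;> fin_cases j <;> simp [Matrix.mul_apply, Fin.sum_univ_two]
  · linear_combination -h
  · ring
  · ring
  · linear_combination -h

theorem entries {C S κ ρ τ p q u v N : ℝ} (hq0 : q ≠ 0) (hqd : q = 1 + τ ^ 2 * (κ ^ 2 - ρ ^ 2))
    (h : C ^ 2 + S ^ 2 = 1)
    (ha : 2 * C * u - N = 1 - 2 * p) (B1 : u * S * (1 + τ ^ 2 * κ ^ 2) = p * κ * q)
    (B2 : u = 2 * v * S * τ * κ) (B3 : u * S * τ ^ 2 * κ + 2 * v * S ^ 2 * τ = p * q) :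
    u • ((AA C S h : Mat) + Bm C S κ ρ τ q) - N • (1 : Mat) +
      v • (Bm C S κ ρ τ q * (AA C S h : Mat) - (AA C S h : Mat) * Bm C S κ ρ τ q) = Gm κ ρ p := by
  have hr : q * q⁻¹ = 1 := mul_inv_cancel₀ hq0
  set r := q⁻¹ with hrd
  show u • (!![C, -S; S, C] + Bm C S κ ρ τ q) - N • (1 : Mat) +
      v • (Bm C S κ ρ τ q * !![C, -S; S, C] - !![C, -S; S, C] * Bm C S κ ρ τ q) = Gm κ ρ p
  have hBm : Bm C S κ ρ τ q =
    !![C + S * (2 * τ ^ 2 * κ * ρ) * r, S * (-(1 + τ ^ 2 * (κ ^ 2 + ρ ^ 2)) + 2 * τ * ρ) * r;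
    S * (1 + τ ^ 2 * (κ ^ 2 + ρ ^ 2) + 2 * τ * ρ) * r, C - S * (2 * τ ^ 2 * κ * ρ) * r] := by
    simp only [Bm, div_eq_mul_inv, hrd]
  rw [hBm, Matrix.mul_fin_two, Matrix.mul_fin_two, Matrix.one_fin_two]
  unfold Gm
  ext i j
  fin_cases i <;> fin_cases j <;> simp
  · linear_combination ha + 2 * ρ * r * B3 + 2 * ρ * p * hr
  · linear_combination u * S * hr - u * S * r * hqd - 2 * r * B1 - 2 * p * κ * hr +
      2 * S * τ * ρ * r * B2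
  · linear_combination -u * S * hr + u * S * r * hqd + 2 * r * B1 + 2 * p * κ * hr +
      2 * S * τ * ρ * r * B2
  · linear_combination ha - 2 * ρ * r * B3 - 2 * ρ * p * hr

theorem scal {C S κ ρ p τ ch sh x sx q u v : ℝ} (h : C ^ 2 + S ^ 2 = 1) (hS : 0 < S)
    (hκ : κ * S = C) (hp : 0 < p) (hw : (κ ^ 2 - ρ ^ 2) * p = 1 - p) (hρ : 0 < ρ) (hch : 0 < ch)
    (hsh : 0 < sh) (hτ : 0 < τ) (hcs : ch ^ 2 = sh ^ 2 + 1) (hxs : x ^ 2 = sx ^ 2 + 1)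
    (hT : τ * (ch * sx) = sh * x) (hP : p * ch ^ 2 = (ch ^ 2 - C ^ 2) * x ^ 2)
    (hq : q = 1 + τ ^ 2 * (κ ^ 2 - ρ ^ 2)) (hu : u * ch ^ 2 = C * x ^ 2)
    (hv : v * (2 * sh * ch) = x * sx) :
    0 < q ∧ S ^ 2 * τ ^ 2 * ρ ^ 2 = sh ^ 2 * q ∧ 2 * C * u - (x ^ 2 + sx ^ 2) = 1 - 2 * p ∧
    u * S * (1 + τ ^ 2 * κ ^ 2) = p * κ * q ∧ u = 2 * v * S * τ * κ ∧
    u * S * τ ^ 2 * κ + 2 * v * S ^ 2 * τ = p * q := by
  have hT2 : τ ^ 2 * ch ^ 2 * sx ^ 2 = sh ^ 2 * x ^ 2 := by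
    linear_combination (τ * (ch * sx) + sh * x) * hT
  have hSρ : S ^ 2 * ρ ^ 2 * p = p - S ^ 2 := by
    linear_combination -S ^ 2 * hw + p * (κ * S + C) * hκ + p * h
  have hpq : q * p = p + τ ^ 2 * (1 - p) := by
    rw [hq]; linear_combination τ ^ 2 * hw
  have hE1' : τ ^ 2 * (p - S ^ 2) * ch ^ 2 = sh ^ 2 * ch ^ 2 * (p + τ ^ 2 * (1 - p)) := by
    linear_combination (-ch ^ 2 * τ ^ 2 * p + ch ^ 2 * τ ^ 2) * hcs - ch ^ 2 * τ ^ 2 * h +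
      (ch ^ 2 * τ ^ 2 - sh ^ 2) * hP + (ch ^ 2 - C ^ 2) * ch ^ 2 * τ ^ 2 * hxs +
      (ch ^ 2 - C ^ 2) * hT2
  have hE1 : S ^ 2 * τ ^ 2 * ρ ^ 2 = sh ^ 2 * q := by
    have : S ^ 2 * τ ^ 2 * ρ ^ 2 * (p * ch ^ 2) = sh ^ 2 * q * (p * ch ^ 2) := by
      linear_combination τ ^ 2 * ch ^ 2 * hSρ + hE1' - sh ^ 2 * ch ^ 2 * hpq
    exact mul_right_cancel₀ (by positivity) this
  have hE3 : x ^ 2 * (S ^ 2 + C ^ 2 * τ ^ 2) = ch ^ 2 * (q * p) := by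
    linear_combination (τ ^ 2 - 1) * hP + x ^ 2 * h - x ^ 2 * hcs + ch ^ 2 * τ ^ 2 * hxs + hT2 -
      ch ^ 2 * hpq
  have hq0 : 0 < q := by
    have h1 : 0 < sh ^ 2 * q := by rw [← hE1]; positivity
    exact (mul_pos_iff_of_pos_left (by positivity)).1 h1
  refine ⟨hq0, hE1, ?_, ?_, ?_, ?_⟩
  · have : (2 * C * u - (x ^ 2 + sx ^ 2)) * ch ^ 2 = (1 - 2 * p) * ch ^ 2 := by
      linear_combination 2 * C * hu + 2 * hP + ch ^ 2 * hxs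
    exact mul_right_cancel₀ (by positivity) this
  · have : u * S * (1 + τ ^ 2 * κ ^ 2) * (ch ^ 2 * S) = p * κ * q * (ch ^ 2 * S) := by
      linear_combination S ^ 2 * (1 + τ ^ 2 * κ ^ 2) * hu + C * x ^ 2 * τ ^ 2 * (κ * S + C) * hκ +
        C * hE3 - ch ^ 2 * q * p * hκ
    exact mul_right_cancel₀ (by positivity) this
  · have : u * (ch ^ 2 * sh) = 2 * v * S * τ * κ * (ch ^ 2 * sh) := by
      linear_combination sh * hu - ch * S * τ * κ * hv - x * S * κ * hT - x ^ 2 * sh * hκ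
    exact mul_right_cancel₀ (by positivity) this
  · have : (u * S * τ ^ 2 * κ + 2 * v * S ^ 2 * τ) * (ch ^ 2 * sh) = p * q * (ch ^ 2 * sh) := by
      linear_combination S * τ ^ 2 * κ * sh * hu + ch * S ^ 2 * τ * hv + x * S ^ 2 * hT +
        C * x ^ 2 * τ ^ 2 * sh * hκ + sh * hE3
    exact mul_right_cancel₀ (by positivity) this

theorem anti {C S κ ρ τ q sh : ℝ} (hq0 : q ≠ 0) (hqd : q = 1 + τ ^ 2 * (κ ^ 2 - ρ ^ 2))
    (h : C ^ 2 + S ^ 2 = 1) (hE1 : S ^ 2 * τ ^ 2 * ρ ^ 2 = sh ^ 2 * q) :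
    (AA C S h : Mat) * Bm C S κ ρ τ q + Bm C S κ ρ τ q * (AA C S h : Mat) =
      (2 * C) • ((AA C S h : Mat) + Bm C S κ ρ τ q) - (2 * (1 + 2 * sh ^ 2)) • (1 : Mat) := by
  have hr : q * q⁻¹ = 1 := mul_inv_cancel₀ hq0
  set r := q⁻¹ with hrd
  show !![C, -S; S, C] * Bm C S κ ρ τ q + Bm C S κ ρ τ q * !![C, -S; S, C] =
      (2 * C) • (!![C, -S; S, C] + Bm C S κ ρ τ q) - (2 * (1 + 2 * sh ^ 2)) • (1 : Mat)
  have hBm : Bm C S κ ρ τ q =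
    !![C + S * (2 * τ ^ 2 * κ * ρ) * r, S * (-(1 + τ ^ 2 * (κ ^ 2 + ρ ^ 2)) + 2 * τ * ρ) * r;
    S * (1 + τ ^ 2 * (κ ^ 2 + ρ ^ 2) + 2 * τ * ρ) * r, C - S * (2 * τ ^ 2 * κ * ρ) * r] := by
    simp only [Bm, div_eq_mul_inv, hrd]
  rw [hBm, Matrix.mul_fin_two, Matrix.mul_fin_two, Matrix.one_fin_two]
  ext i j
  fin_cases i <;> fin_cases j <;> simp
  · linear_combination -2 * h - 2 * S ^ 2 * hr + 2 * S ^ 2 * r * hqd - 4 * r * hE1 -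
      4 * sh ^ 2 * hr
  · ring
  · ring
  · linear_combination -2 * h - 2 * S ^ 2 * hr + 2 * S ^ 2 * r * hqd - 4 * r * hE1 -
      4 * sh ^ 2 * hr

theorem tt_pos (l : ℕ) {y : ℝ} (hy : 0 < y) : 0 < tt l y := by
  unfold tt
  have a1 : 0 < sinh y := sinh_pos_iff.2 hy
  have a2 : 0 < sinh ((2 * l + 1) * y) := sinh_pos_iff.2 (by positivity)
  have := cosh_pos y
  have := cosh_pos ((2 * l + 1) * y)
  positivity

theorem base_rel {C S κ ρ p : ℝ} (h : C ^ 2 + S ^ 2 = 1) (hS : 0 < S) (hκ : κ * S = C) (hp : 0 < p)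
    (hw : (κ ^ 2 - ρ ^ 2) * p = 1 - p) (hρ : 0 < ρ) (l : ℕ) {y : ℝ} (hy : 0 < y)
    (heq : (1 - (C / cosh y) ^ 2) * cosh ((2 * l + 1) * y) ^ 2 = p) :
    0 < 1 + (tt l y) ^ 2 * (κ ^ 2 - ρ ^ 2) ∧
    ∀ hq : 0 < 1 + (tt l y) ^ 2 * (κ ^ 2 - ρ ^ 2),
      ((RR (l : ℤ) (AA C S h) (UU κ ρ (tt l y) hq * AA C S h * (UU κ ρ (tt l y) hq)⁻¹) : SLR) : Mat)
        = Gm κ ρ p := by
  have hch := cosh_pos y
  have hsh : 0 < sinh y := sinh_pos_iff.2 hy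
  have hsx : 0 < sinh ((2 * l + 1) * y) := sinh_pos_iff.2 (by positivity)
  have hx := cosh_pos ((2 * l + 1) * y)
  have hcs := cosh_sq y
  have hxs := cosh_sq ((2 * l + 1) * y)
  have hτ0 := tt_pos l hy
  have hT : tt l y * (cosh y * sinh ((2 * l + 1) * y)) = sinh y * cosh ((2 * l + 1) * y) := by
    unfold tt; field_simp
  have hP : p * cosh y ^ 2 = (cosh y ^ 2 - C ^ 2) * cosh ((2 * l + 1) * y) ^ 2 := by
    rw [← heq]; field_simp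
  have hc2 : cosh (2 * y) = 1 + 2 * sinh y ^ 2 := by rw [cosh_two_mul, hcs]; ring
  have hxc : 0 < 2 * sinh y * cosh y := by positivity
  obtain ⟨hq0, hE1, ha, B1, B2, B3⟩ := scal (q := 1 + (tt l y) ^ 2 * (κ ^ 2 - ρ ^ 2))
    (u := cosh ((2 * l + 1) * y) ^ 2 * (C / cosh y ^ 2))
    (v := cosh ((2 * l + 1) * y) * sinh ((2 * l + 1) * y) / (2 * sinh y * cosh y))
    h hS hκ hp hw hρ hch hsh hτ0 hcs hxs hT hP rfl (by field_simp) (by field_simp)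
  refine ⟨hq0, fun hq => ?_⟩
  have hBm := UAU C S κ ρ (tt l y) h hq
  have hA1 : (AA C S h : Mat) * (AA C S h : Mat) = (2 * C) • (AA C S h : Mat) - 1 := by
    have h1 := cayley (AA C S h)
    have h2 : (AA C S h : Mat) 0 0 + (AA C S h : Mat) 1 1 = 2 * C := by
      show C + C = _; ring
    rwa [h2] at h1
  have hB1 := cayley (UU κ ρ (tt l y) hq * AA C S h * (UU κ ρ (tt l y) hq)⁻¹)
  have hB2 : ((UU κ ρ (tt l y) hq * AA C S h * (UU κ ρ (tt l y) hq)⁻¹ : SLR) : Mat) 0 0 +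
      ((UU κ ρ (tt l y) hq * AA C S h * (UU κ ρ (tt l y) hq)⁻¹ : SLR) : Mat) 1 1 = 2 * C := by
    rw [hBm]; simp [Bm]; ring
  rw [hB2] at hB1
  rw [RR_mat _ _ l hy hA1 hB1 ?_, hBm]
  · exact entries hq0.ne' rfl h ha B1 B2 B3
  · rw [hBm, hc2]
    exact anti hq0.ne' rfl h hE1

end Pool.Agent.L7h81.Pm
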