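import Pool.Agent.L7h81.Pm.Stm2

set_option autoImplicit false

/-!
# The condition for all large `n`
-/

namespace Pool.Agent.L7h81.Pm

open Real Filter

theorem tendsto_cot : Tendsto (fun n : ℕ => cot (π / n)) atTop atTop := by
  have h2 : Tendsto (fun n : ℕ => π / 2 - π / n) atTop (nhdsWithin (π / 2) (Set.Iio (π / 2))) := by
    rw [tendsto_nhdsWithin_iff]
    constructor
    · have : Tendsto (fun n : ℕ => π / (n : ℝ)) atTop (nhds 0) :=
        tendsto_const_div_atTop_nhds_zero_nat π
      simpa using this.const_sub (π / 2)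
    · filter_upwards [eventually_gt_atTop 0] with n hn
      have : (0 : ℝ) < n := by exact_mod_cast hn
      have := div_pos pi_pos this
      show π / 2 - π / n < π / 2
      linarith
  refine (tendsto_tan_pi_div_two.comp h2).congr fun n => ?_
  show tan (π / 2 - π / n) = _
  rw [tan_eq_sin_div_cos, sin_pi_div_two_sub, cos_pi_div_two_sub, cot_eq_cos_div_sin]

theorem tendsto_one (m : ℤ) (hm : Odd m) :
    Tendsto (fun n : ℕ => arctan (cot (π / n) / (m : ℝ))) atTop (nhds ((m.sign : ℝ) * (π / 2))) := by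
  rcases lt_trichotomy m 0 with h | h | h
  · have h1 : (m : ℝ) < 0 := by exact_mod_cast h
    have h2 : Tendsto (fun n : ℕ => cot (π / n) / (m : ℝ)) atTop atBot :=
      tendsto_cot.atTop_div_const_of_neg h1
    have h3 := (tendsto_arctan_atBot.mono_right nhdsWithin_le_nhds).comp h2
    rw [Int.sign_eq_neg_one_of_neg h]
    push_cast
    rw [neg_one_mul]
    exact h3
  · subst h; exact absurd hm (by decide)
  · have h1 : (0 : ℝ) < (m : ℝ) := by exact_mod_cast h
    have h2 : Tendsto (fun n : ℕ => cot (π / n) / (m : ℝ)) atTop atTop :=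
      tendsto_cot.atTop_div_const h1
    have h3 := (tendsto_arctan_atTop.mono_right nhdsWithin_le_nhds).comp h2
    rw [Int.sign_eq_one_of_pos h]
    push_cast
    rw [one_mul]
    exact h3

theorem s_EV : S_EV := by
  intro k _ m hm h
  have h1 : Tendsto (fun n : ℕ => ∑ j, arctan (cot (π / n) / (m j : ℝ))) atTop
      (nhds ((∑ j, ((m j).sign : ℝ)) * (π / 2))) := by
    rw [Finset.sum_mul]
    exact tendsto_finsetSum _ fun j _ => tendsto_one (m j) (hm j)
  rcases h with h | h
  · have h2 : π < |(∑ j, ((m j).sign : ℝ)) * (π / 2)| := by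
      rw [abs_mul, abs_of_pos (by positivity : (0 : ℝ) < π / 2)]
      nlinarith [pi_pos]
    obtain ⟨N, hN⟩ := eventually_atTop.1 (h1.abs.eventually (lt_mem_nhds h2))
    exact ⟨N, fun n hn => Or.inl (hN n hn)⟩
  · have h2 : (∑ j, ((m j).sign : ℝ)) * (π / 2) * ∑ j, 1 / (m j : ℝ) < 0 := by
      nlinarith [pi_pos]
    obtain ⟨N, hN⟩ := eventually_atTop.1
      ((h1.mul_const (∑ j, 1 / (m j : ℝ))).eventually (gt_mem_nhds h2))
    exact ⟨N, fun n hn => Or.inr (hN n hn)⟩

end Pool.Agent.L7h81.Pm
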