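import Mathlib

set_option autoImplicit false

/-!
# The condition for all `n > 2 ∑ |m j|`
-/

namespace Pool.Agent.L7h81.Pm

open Real

theorem tan_small {n : ℕ} (hn : 5 ≤ n) {M : ℝ} (hM0 : 0 ≤ M) (hM : 2 * M + 1 ≤ n) :
    0 < tan (π / n) ∧ tan (π / n) * M < π / 2 := by
  have hnr : (5 : ℝ) ≤ n := by exact_mod_cast hn
  have hn0 : (0 : ℝ) < n := by linarith
  have hp := pi_pos
  set u := π / n with hu
  have hu0 : 0 < u := by positivity
  have hun : u * n = π := by rw [hu]; field_simp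
  have hpi : π < 3.15 := pi_lt_d2
  have hpu : π * u < 2 := by
    have h1 : π * u * n = π ^ 2 := by rw [mul_assoc, hun]; ring
    have h2 : π ^ 2 < 2 * n := by nlinarith
    by_contra h
    push Not at h
    have : 2 * (n : ℝ) ≤ π * u * n := mul_le_mul_of_nonneg_right h hn0.le
    linarith
  have hu1 : u < 1 := by nlinarith [pi_gt_three]
  have hcos : 1 - u ^ 2 / 2 ≤ cos u := one_sub_sq_div_two_le_cos
  have hcos0 : 0 < cos u := by nlinarith
  have hsin : sin u ≤ u := sin_le hu0.le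
  have hsin0 : 0 < sin u := sin_pos_of_pos_of_lt_pi hu0 (by linarith [pi_gt_three])
  rw [tan_eq_sin_div_cos]
  refine ⟨by positivity, ?_⟩
  rw [div_mul_eq_mul_div, div_lt_iff₀ hcos0]
  have h3 : sin u * M ≤ u * M := mul_le_mul_of_nonneg_right hsin hM0
  have h4 : u * M ≤ (π - u) / 2 := by
    have : u * (2 * M + 1) ≤ u * n := mul_le_mul_of_nonneg_left hM hu0.le
    rw [hun] at this
    linarith
  have h5 : π / 2 * (1 - u ^ 2 / 2) ≤ π / 2 * cos u := mul_le_mul_of_nonneg_left hcos (by positivity)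
  have h6 : π * u * u < 2 * u := mul_lt_mul_of_pos_right hpu hu0
  nlinarith

theorem arctan_near {t : ℝ} (ht : 0 < t) (m : ℤ) (hm : m ≠ 0) :
    |arctan (t⁻¹ / (m : ℝ)) - (m.sign : ℝ) * (π / 2)| ≤ |(m : ℝ)| * t := by
  have key : ∀ a : ℝ, 0 < a → |arctan (t⁻¹ / a) - π / 2| ≤ a * t := by
    intro a ha
    have h1 : t⁻¹ / a = (a * t)⁻¹ := by rw [mul_inv]; field_simp
    rw [h1, arctan_inv_of_pos (by positivity)]
    have h2 : 0 < arctan (a * t) := arctan_pos.2 (by positivity)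
    have h3 : arctan (a * t) ≤ a * t := by
      have h4 := arctan_lt_pi_div_two (a * t)
      have h5 := lt_tan h2 h4
      rw [tan_arctan] at h5
      exact h5.le
    rw [abs_le]
    constructor <;> linarith
  rcases lt_or_gt_of_ne hm with h | h
  · have h1 : (m : ℝ) < 0 := by exact_mod_cast h
    have h2 := key (-(m : ℝ)) (by linarith)
    rw [Int.sign_eq_neg_one_of_neg h, abs_of_neg h1]
    have h3 : arctan (t⁻¹ / (m : ℝ)) = -arctan (t⁻¹ / (-(m : ℝ))) := by
      rw [← arctan_neg, div_neg, neg_neg]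
    rw [h3]
    have h4 : -arctan (t⁻¹ / (-(m : ℝ))) - ((-1 : ℤ) : ℝ) * (π / 2) =
        -(arctan (t⁻¹ / (-(m : ℝ))) - π / 2) := by push_cast; ring
    rw [h4, abs_neg]
    exact h2
  · have h1 : (0 : ℝ) < (m : ℝ) := by exact_mod_cast h
    have h2 := key (m : ℝ) h1
    rw [Int.sign_eq_one_of_pos h, abs_of_pos h1]
    push_cast
    rw [one_mul]
    exact h2

theorem ev_explicit {k : ℕ} [NeZero k] (m : ZMod k → ℤ) (hm : ∀ j, Odd (m j))
    (h : 3 ≤ |∑ j, (m j).sign| ∨ (∑ j, ((m j).sign : ℝ)) * ∑ j, 1 / (m j : ℝ) < 0)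
    (n : ℕ) (hn : 2 * ∑ j, |m j| < n) :
    π < |∑ j, arctan (cot (π / n) / (m j : ℝ))| ∨
      (∑ j, arctan (cot (π / n) / (m j : ℝ))) * ∑ j, 1 / (m j : ℝ) < 0 := by
  have hm0 : ∀ j, m j ≠ 0 := by
    intro j h0
    have := hm j
    rw [h0] at this
    exact absurd this (by decide)
  have hm1 : ∀ j, 1 ≤ |m j| := fun j => Int.one_le_abs (hm0 j)
  have hsle : ∀ j, |(m j).sign| ≤ 1 := by
    intro j
    rcases lt_or_gt_of_ne (hm0 j) with h | h
    · rw [Int.sign_eq_neg_one_of_neg h]; decide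
    · rw [Int.sign_eq_one_of_pos h]; decide
  have hMk : (k : ℤ) ≤ ∑ j, |m j| := by
    calc (k : ℤ) = ∑ _j : ZMod k, (1 : ℤ) := by simp
      _ ≤ ∑ j, |m j| := Finset.sum_le_sum fun j _ => hm1 j
  have hk2 : 2 ≤ k := by
    by_contra hk
    have hk1 : k = 1 := by
      have := NeZero.pos k
      omega
    subst hk1
    have e1 : ∀ f : ZMod 1 → ℝ, ∑ j, f j = f 0 := fun f => by
      rw [Fintype.sum_unique]; rfl
    rcases h with h | h
    · have : |∑ j : ZMod 1, (m j).sign| ≤ 1 := by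
        rw [Fintype.sum_unique]; exact hsle _
      omega
    · rw [e1, e1] at h
      rcases lt_or_gt_of_ne (hm0 0) with h' | h'
      · have h1 : (m 0 : ℝ) < 0 := by exact_mod_cast h'
        rw [Int.sign_eq_neg_one_of_neg h'] at h
        have : (1 : ℝ) / (m 0 : ℝ) < 0 := one_div_neg.2 h1
        push_cast at h
        linarith
      · have h1 : (0 : ℝ) < (m 0 : ℝ) := by exact_mod_cast h'
        rw [Int.sign_eq_one_of_pos h'] at h
        have : 0 < (1 : ℝ) / (m 0 : ℝ) := one_div_pos.2 h1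
        push_cast at h
        linarith
  have hn5 : 5 ≤ n := by
    have : (2 : ℤ) ≤ k := by exact_mod_cast hk2
    omega
  set M : ℝ := ∑ j, |(m j : ℝ)| with hM
  have hM0 : 0 ≤ M := Finset.sum_nonneg fun j _ => abs_nonneg _
  have hMc : M = ((∑ j, |m j| : ℤ) : ℝ) := by
    rw [hM]; push_cast; rfl
  have hM1 : 2 * M + 1 ≤ n := by
    rw [hMc]
    have : 2 * ∑ j, |m j| + 1 ≤ (n : ℤ) := by omega
    exact_mod_cast this
  obtain ⟨ht0, htM⟩ := tan_small hn5 hM0 hM1
  have hcot : cot (π / n) = (tan (π / n))⁻¹ := by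
    rw [cot_eq_cos_div_sin, tan_eq_sin_div_cos, inv_div]
  rw [hcot]
  set t := tan (π / n) with ht
  set F := ∑ j, arctan (t⁻¹ / (m j : ℝ)) with hF
  set s : ℝ := ∑ j, ((m j).sign : ℝ) with hs
  have hsc : s = ((∑ j, (m j).sign : ℤ) : ℝ) := by rw [hs]; push_cast; rfl
  have hFs : |F - s * (π / 2)| < π / 2 := by
    have e1 : F - s * (π / 2) = ∑ j, (arctan (t⁻¹ / (m j : ℝ)) - ((m j).sign : ℝ) * (π / 2)) := by
      rw [Finset.sum_sub_distrib, ← Finset.sum_mul]
    rw [e1]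
    calc |∑ j, (arctan (t⁻¹ / (m j : ℝ)) - ((m j).sign : ℝ) * (π / 2))|
        ≤ ∑ j, |arctan (t⁻¹ / (m j : ℝ)) - ((m j).sign : ℝ) * (π / 2)| :=
          Finset.abs_sum_le_sum_abs _ _
      _ ≤ ∑ j, |(m j : ℝ)| * t := Finset.sum_le_sum fun j _ => arctan_near ht0 (m j) (hm0 j)
      _ = t * M := by rw [← Finset.sum_mul, mul_comm]
      _ < π / 2 := htM
  have hp := pi_pos
  rcases h with h | h
  · left
    have h1 : (3 : ℝ) ≤ |s| := by
      rw [hsc]; exact_mod_cast h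
    have h2 : |s * (π / 2)| = |s| * (π / 2) := by rw [abs_mul, abs_of_pos (by positivity : 0 < π / 2)]
    have h3 : |s * (π / 2)| ≤ |F| + |F - s * (π / 2)| := by
      have h4 := abs_sub_abs_le_abs_sub (s * (π / 2)) F
      rw [abs_sub_comm] at h4
      linarith
    nlinarith
  · right
    have hs0 : s ≠ 0 := by
      intro h0; rw [h0, zero_mul] at h; exact lt_irrefl _ h
    have h1 : (1 : ℝ) ≤ |s| := by
      have : (∑ j, (m j).sign) ≠ 0 := by
        intro h0; apply hs0; rw [hsc, h0]; simp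
      rw [hsc]; exact_mod_cast Int.one_le_abs this
    have h2 : 0 < F * s := by
      have h3 : F * s = s ^ 2 * (π / 2) + s * (F - s * (π / 2)) := by ring
      have h4 : -(|s| * |F - s * (π / 2)|) ≤ s * (F - s * (π / 2)) := by
        rw [← abs_mul]; exact neg_abs_le _
      have h5 : |s| * |F - s * (π / 2)| < |s| * (π / 2) :=
        mul_lt_mul_of_pos_left hFs (by linarith)
      have h6 : s ^ 2 = |s| ^ 2 := (sq_abs s).symm
      have h7 : |s| * (π / 2) ≤ |s| ^ 2 * (π / 2) := by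
        have h8 : |s| ≤ |s| ^ 2 := by nlinarith
        exact mul_le_mul_of_nonneg_right h8 (by positivity)
      rw [h3, h6]
      linarith
    by_contra h7
    push Not at h7
    have h8 : (F * s) * (s * ∑ j, 1 / (m j : ℝ)) < 0 := mul_neg_of_pos_of_neg h2 h
    have h9 : (F * s) * (s * ∑ j, 1 / (m j : ℝ)) = s ^ 2 * (F * ∑ j, 1 / (m j : ℝ)) := by ring
    rw [h9] at h8
    have : 0 ≤ s ^ 2 * (F * ∑ j, 1 / (m j : ℝ)) := mul_nonneg (sq_nonneg s) h7
    linarith

end Pool.Agent.L7h81.Pm
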