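import Pool.Agent.L7h81.Pm.Stm

set_option autoImplicit false

/-!
# Large parameters
-/

namespace Pool.Agent.L7h81.Pm

open Real Pool.Agent.L7h81.Pz

theorem log_cosh_le {y : ℝ} (hy : 0 ≤ y) : log (cosh y) ≤ y := by
  have h : cosh y ≤ exp y := by
    rw [cosh_eq]
    have : exp (-y) ≤ exp y := exp_le_exp.2 (by linarith)
    linarith
  calc log (cosh y) ≤ log (exp y) := log_le_log (cosh_pos y) h
    _ = y := log_exp y

theorem le_log_cosh (y : ℝ) : y - log 2 ≤ log (cosh y) := by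
  have h : exp y / 2 ≤ cosh y := by
    rw [cosh_eq]
    have := exp_pos (-y)
    linarith
  calc y - log 2 = log (exp y / 2) := by
        rw [log_div (exp_pos y).ne' (by norm_num), log_exp]
    _ ≤ log (cosh y) := log_le_log (by positivity) h

theorem col_log {C S : ℝ} (hC : 0 < C) (hS : 0 < S) (h1 : C ^ 2 + S ^ 2 = 1) (l : ℕ) {p : ℝ}
    (hp : 1 < p) {s : ℝ} (hs0 : 0 < s) (hs1 : s < 1) (hs : s ^ 2 * p = p - 1) :
    0 < tt l (yy hC hS h1 l p) ∧ tt l (yy hC hS h1 l p) * s < 1 ∧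
    |log ((1 + tt l (yy hC hS h1 l p) * s) / (1 - tt l (yy hC hS h1 l p) * s)) -
      log p / (2 * l + 1)| ≤ 4 * log 2 - 4 * log S := by
  have hS1 : S ^ 2 < 1 := by nlinarith
  have hSle : S ≤ 1 := by nlinarith
  have hpS : S ^ 2 < p := by linarith
  have hp0 : 0 < p := by linarith
  have hy := yy_pos hC hS h1 l hpS
  have heq := FF_yy hC hS h1 l hpS
  unfold FF at heq
  set y := yy hC hS h1 l p with hyd
  have hch := cosh_pos y
  have hsh : 0 < sinh y := sinh_pos_iff.2 hy
  have hsx : 0 < sinh ((2 * l + 1) * y) := sinh_pos_iff.2 (by positivity)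
  have hx := cosh_pos ((2 * l + 1) * y)
  have hcs := cosh_sq y
  have hxs := cosh_sq ((2 * l + 1) * y)
  have hm1 : (1 : ℝ) ≤ 2 * l + 1 := by
    have : (0 : ℝ) ≤ l := Nat.cast_nonneg l
    linarith
  have hT : tt l y * (cosh y * sinh ((2 * l + 1) * y)) = sinh y * cosh ((2 * l + 1) * y) := by
    unfold tt; field_simp
  have ht0 : 0 < tt l y := by unfold tt; positivity
  have ht1 : tt l y ≤ 1 := by
    unfold tt
    rw [div_le_one (by positivity)]
    refine sinh_cosh_le' hy.le ?_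
    calc y = 1 * y := (one_mul y).symm
      _ ≤ (2 * l + 1) * y := mul_le_mul_of_nonneg_right hm1 hy.le
  have hP : p * cosh y ^ 2 = (cosh y ^ 2 - C ^ 2) * cosh ((2 * l + 1) * y) ^ 2 := by
    rw [← heq]; field_simp
  have hlx := log_cosh_le (y := (2 * l + 1) * y) (by positivity)
  have hlx' := le_log_cosh ((2 * l + 1) * y)
  have hlc := log_cosh_le hy.le
  have hlc' := le_log_cosh y
  have h1ch := one_le_cosh y
  set t := tt l y with htd
  set x := cosh ((2 * l + 1) * y) with hxd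
  set sx := sinh ((2 * l + 1) * y) with hsxd
  set ch := cosh y with hchd
  have hts : t * s < 1 := lt_of_le_of_lt (mul_le_of_le_one_left hs0.le ht1) hs1
  refine ⟨ht0, hts, ?_⟩
  have hT2 : t ^ 2 * ch ^ 2 * sx ^ 2 = sinh y ^ 2 * x ^ 2 := by
    linear_combination (t * (ch * sx) + sinh y * x) * hT
  have hpq : (1 - t ^ 2 * s ^ 2) * p = p + t ^ 2 * (1 - p) := by
    linear_combination -t ^ 2 * hs
  have hE3 : x ^ 2 * (S ^ 2 + C ^ 2 * t ^ 2) = ch ^ 2 * ((1 - t ^ 2 * s ^ 2) * p) := by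
    linear_combination (t ^ 2 - 1) * hP + x ^ 2 * h1 - x ^ 2 * hcs + ch ^ 2 * t ^ 2 * hxs + hT2 -
      ch ^ 2 * hpq
  have hE4 : (1 - t ^ 2 * s ^ 2) * (ch ^ 2 - C ^ 2) = S ^ 2 + C ^ 2 * t ^ 2 := by
    have : (1 - t ^ 2 * s ^ 2) * (ch ^ 2 - C ^ 2) * x ^ 2 = (S ^ 2 + C ^ 2 * t ^ 2) * x ^ 2 := by
      linear_combination -hE3 - (1 - t ^ 2 * s ^ 2) * hP
    exact mul_right_cancel₀ (by positivity) this
  have hchC : S ^ 2 * ch ^ 2 ≤ ch ^ 2 - C ^ 2 := by
    have e : ch ^ 2 - C ^ 2 - S ^ 2 * ch ^ 2 = C ^ 2 * sinh y ^ 2 := by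
      linear_combination -ch ^ 2 * h1 + C ^ 2 * hcs
    have : 0 ≤ C ^ 2 * sinh y ^ 2 := by positivity
    linarith
  have hchC0 : 0 < ch ^ 2 - C ^ 2 := lt_of_lt_of_le (by positivity) hchC
  have hden0 : 0 < S ^ 2 + C ^ 2 * t ^ 2 := by positivity
  have h1ts : 0 < 1 - t * s := by linarith
  have h1ts' : 0 < 1 + t * s := by positivity
  have hR : (1 + t * s) / (1 - t * s) = (1 + t * s) ^ 2 * (ch ^ 2 - C ^ 2) / (S ^ 2 + C ^ 2 * t ^ 2) := by
    rw [div_eq_div_iff h1ts.ne' hden0.ne', ← hE4]; ring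
  have hlogR : log ((1 + t * s) / (1 - t * s)) = 2 * log (1 + t * s) + log (ch ^ 2 - C ^ 2) -
      log (S ^ 2 + C ^ 2 * t ^ 2) := by
    rw [hR, log_div (by positivity) hden0.ne', log_mul (by positivity) hchC0.ne', log_pow]
    push_cast; ring
  have b1 : 0 ≤ log (1 + t * s) := log_nonneg (by linarith [mul_pos ht0 hs0])
  have b2 : log (1 + t * s) ≤ log 2 := log_le_log h1ts' (by linarith)
  have b3 : 2 * log S + 2 * log ch ≤ log (ch ^ 2 - C ^ 2) := by
    have := log_le_log (by positivity) hchC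
    rw [log_mul (by positivity) (by positivity), log_pow, log_pow] at this
    push_cast at this; exact this
  have b4 : log (ch ^ 2 - C ^ 2) ≤ 2 * log ch := by
    have := log_le_log hchC0 (sub_le_self (ch ^ 2) (sq_nonneg C))
    rw [log_pow] at this
    push_cast at this; exact this
  have b5 : 2 * log S ≤ log (S ^ 2 + C ^ 2 * t ^ 2) := by
    have h0 : 0 ≤ C ^ 2 * t ^ 2 := by positivity
    have := log_le_log (by positivity : (0 : ℝ) < S ^ 2) (le_add_of_nonneg_right h0)
    rw [log_pow] at this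
    push_cast at this; exact this
  have b6 : log (S ^ 2 + C ^ 2 * t ^ 2) ≤ 0 := by
    refine log_nonpos hden0.le ?_
    have : C ^ 2 * t ^ 2 ≤ C ^ 2 * 1 := by
      refine mul_le_mul_of_nonneg_left ?_ (sq_nonneg C)
      exact pow_le_one₀ ht0.le ht1
    linarith
  have b7 : log p = log (ch ^ 2 - C ^ 2) - 2 * log ch + 2 * log x := by
    have := congrArg log hP
    rw [log_mul hp0.ne' (by positivity), log_mul hchC0.ne' (by positivity), log_pow, log_pow] at this
    push_cast at this; linarith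
  have b8 : log S ≤ 0 := log_nonpos hS.le hSle
  have b9 : 0 < log 2 := log_pos (by norm_num)
  -- comparison of `log p / (2 l + 1)` with `2 y`
  have c1 : log p / (2 * l + 1) ≤ 2 * y := by
    rw [div_le_iff₀ (by positivity)]
    calc log p ≤ 2 * ((2 * l + 1) * y) := by linarith
      _ = 2 * y * (2 * l + 1) := by ring
  have c2 : 2 * y - (2 * log 2 - 2 * log S) ≤ log p / (2 * l + 1) := by
    rw [le_div_iff₀ (by positivity)]
    have h0 : 0 ≤ (2 * (l : ℝ)) * (2 * log 2 - 2 * log S) := by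
      have : (0 : ℝ) ≤ l := Nat.cast_nonneg l
      apply mul_nonneg <;> linarith
    calc (2 * y - (2 * log 2 - 2 * log S)) * (2 * l + 1)
        = 2 * ((2 * l + 1) * y) - (2 * log 2 - 2 * log S) -
          (2 * (l : ℝ)) * (2 * log 2 - 2 * log S) := by ring
      _ ≤ log p := by linarith
  rw [hlogR, abs_le]
  constructor <;> linarith

theorem ab_prod {w s : ℝ} (hw : w = -s ^ 2) (τ : ℕ → ℝ) (k : ℕ) :
    (ab w τ k).1 + (ab w τ k).2 * s = ∏ i ∈ Finset.range k, (1 - τ i * s) ∧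
    (ab w τ k).1 - (ab w τ k).2 * s = ∏ i ∈ Finset.range k, (1 + τ i * s) := by
  induction k with
  | zero => simp [ab]
  | succ k ih =>
    rw [Finset.prod_range_succ, Finset.prod_range_succ, ← ih.1, ← ih.2]
    show ((ab w τ k).1 + (ab w τ k).2 * τ k * w) + ((ab w τ k).2 - (ab w τ k).1 * τ k) * s = _ ∧
      ((ab w τ k).1 + (ab w τ k).2 * τ k * w) - ((ab w τ k).2 - (ab w τ k).1 * τ k) * s = _
    rw [hw]
    constructor <;> ring

theorem s_HIGH : S_HIGH := by
  intro C S hC hS h1 k l ε hε hσ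
  set σ := ∑ i ∈ Finset.range k, ε i / (2 * l i + 1) with hσd
  have hSle : S ≤ 1 := by nlinarith
  have b8 : log S ≤ 0 := log_nonpos hS.le hSle
  have b9 : 0 < log 2 := log_pos (by norm_num)
  set B := 4 * log 2 - 4 * log S with hB
  have hB0 : 0 < B := by rw [hB]; linarith
  set T := k * B / (-σ) + 1 with hT
  have hT0 : 0 < T := by
    have : 0 ≤ k * B / (-σ) := by
      have : 0 < -σ := by linarith
      positivity
    linarith
  have hTσ : σ * T + k * B = σ := by
    rw [hT]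
    have : σ ≠ 0 := hσ.ne
    field_simp
    ring
  have hp : 1 < exp T := by
    rw [← exp_zero]; exact exp_lt_exp.2 hT0
  set p := exp T with hpd
  have hp0 : 0 < p := exp_pos T
  have hlp : log p = T := log_exp T
  refine ⟨p, hp, ?_⟩
  have hq0 : 0 < (p - 1) / p := by
    have : 0 < p - 1 := by linarith
    positivity
  set s := √((p - 1) / p) with hsd
  have hs0 : 0 < s := sqrt_pos.2 hq0
  have hss : s ^ 2 = (p - 1) / p := sq_sqrt hq0.le
  have hs : s ^ 2 * p = p - 1 := by rw [hss]; field_simp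
  have hs1 : s < 1 := by
    have : s ^ 2 < 1 := by
      rw [hss, div_lt_one hp0]; linarith
    nlinarith
  have hw : (1 - p) / p = -s ^ 2 := by rw [hss]; ring
  set τ := ta hC hS h1 l ε p with hτ
  obtain ⟨e1, e2⟩ := ab_prod hw τ k
  have hcol := fun i => col_log hC hS h1 (l i) hp hs0 hs1 hs
  have hpos : ∀ i, 0 < 1 - τ i * s ∧ 0 < 1 + τ i * s ∧
      log (1 + τ i * s) - log (1 - τ i * s) ≤ ε i / (2 * l i + 1) * T + B := by
    intro i
    obtain ⟨c1, c2, c3⟩ := hcol i
    have hts := mul_pos c1 hs0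
    have d1 : 0 < 1 - tt (l i) (yy hC hS h1 (l i) p) * s := by linarith
    have d2 : 0 < 1 + tt (l i) (yy hC hS h1 (l i) p) * s := by linarith
    rw [hlp, log_div d2.ne' d1.ne', abs_le] at c3
    rcases hε i with h | h
    · have : τ i = tt (l i) (yy hC hS h1 (l i) p) := by simp only [hτ, ta, h, one_mul]
      rw [this, h]
      refine ⟨d1, d2, ?_⟩
      have : 1 / (2 * (l i : ℝ) + 1) * T = T / (2 * l i + 1) := by ring
      rw [this]
      linarith [c3.2]
    · have : τ i = -tt (l i) (yy hC hS h1 (l i) p) := by simp only [hτ, ta, h, neg_one_mul]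
      rw [this, h]
      have e3 : 1 - -tt (l i) (yy hC hS h1 (l i) p) * s = 1 + tt (l i) (yy hC hS h1 (l i) p) * s := by ring
      have e4 : 1 + -tt (l i) (yy hC hS h1 (l i) p) * s = 1 - tt (l i) (yy hC hS h1 (l i) p) * s := by ring
      rw [e3, e4]
      refine ⟨d2, d1, ?_⟩
      have : -1 / (2 * (l i : ℝ) + 1) * T = -(T / (2 * l i + 1)) := by ring
      rw [this]
      linarith [c3.1]
  have hprod1 : 0 < ∏ i ∈ Finset.range k, (1 - τ i * s) := Finset.prod_pos fun i _ => (hpos i).1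
  have hprod2 : 0 < ∏ i ∈ Finset.range k, (1 + τ i * s) := Finset.prod_pos fun i _ => (hpos i).2.1
  have hlt : ∏ i ∈ Finset.range k, (1 + τ i * s) < ∏ i ∈ Finset.range k, (1 - τ i * s) := by
    rw [← log_lt_log_iff hprod2 hprod1, log_prod fun i _ => (hpos i).2.1.ne',
      log_prod fun i _ => (hpos i).1.ne', ← sub_neg, ← Finset.sum_sub_distrib]
    calc ∑ i ∈ Finset.range k, (log (1 + τ i * s) - log (1 - τ i * s))
        ≤ ∑ i ∈ Finset.range k, (ε i / (2 * l i + 1) * T + B) :=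
          Finset.sum_le_sum fun i _ => (hpos i).2.2
      _ = σ * T + k * B := by
          rw [Finset.sum_add_distrib, ← Finset.sum_mul, ← hσd]; simp
      _ = σ := hTσ
      _ < 0 := hσ
  have : 0 < (ab ((1 - p) / p) τ k).2 * s := by linarith
  exact (mul_pos_iff_of_pos_right hs0).1 this

end Pool.Agent.L7h81.Pm
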