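import Pool.Agent.L7h81.Pm.Stm
import Pool.Agent.L7h81.Pz.Rep

set_option autoImplicit false

/-!
# Project PM, further parts
-/

namespace Pool.Agent.L7h81.Pm

open Real Pool.Agent.L7h81.Pz

/-- **LIFT**: a matrix of trace `2 cos (π / n)` that turns in the positive direction has a lift that is conjugate to the translation
by `1 / n`.

Proof.  `C = cos (π / n)`, `S = sin (π / n)`, `B = !![a, b; c, d]`, `h = (c - b) / 2 > 0`, and polar coordinates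
`(a - d) / 2 = ρ cos α`, `(b + c) / 2 = ρ sin α`, `ρ ≥ 0` (for example `z = ⟨x, y⟩ : ℂ`, `ρ = ‖z‖`, `α = arg z`,
`Complex.norm_mul_cos_arg`, `Complex.norm_mul_sin_arg`).  `C ^ 2 + h ^ 2 - ρ ^ 2 = a d - b c = 1` is the hypothesis `H` of `BB`
(`Pz/Column.lean`), and `B = BB C h ρ H α` (entries).  For `ρ > 0` this is `lift_exists` of `Pz/Rep.lean`.  For `ρ = 0`:
`h ^ 2 = 1 - C ^ 2 = S ^ 2`, so `h = S`, `B = rotS (π / n)`, take `u = 1` (`(rt n, rotS (π / n)) ∈ Lp` is `m3` in the proof of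
`lift_exists`). -/
def S_LIFT : Prop := ∀ (n : ℕ), n ≠ 0 → 0 < sin (π / n) → ∀ B : SLR,
  (B : Matrix (Fin 2) (Fin 2) ℝ) 0 0 + (B : Matrix (Fin 2) (Fin 2) ℝ) 1 1 = 2 * cos (π / n) →
  (B : Matrix (Fin 2) (Fin 2) ℝ) 0 1 < (B : Matrix (Fin 2) (Fin 2) ℝ) 1 0 →
  ∃ u : CircleDeg1Liftˣ, (u * rt n * u⁻¹, B) ∈ Lp

/-- **EV**: the condition for all large `n`.

Proof.  `κ_n = cot (π / n) → ∞` (`h1` in `eventually_condition` of `Results/MP_3d425c_gt/PretzelCoverOrders.lean`), so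
`arctan (κ_n / m_j) → sign (m_j) π / 2` (odd, so nonzero, integers `m_j`) and `F_n → (∑ sign m_j) π / 2`.  If
`|∑ sign m_j| ≥ 3` the absolute value of the limit is at least `3 π / 2 > π`.  If `(∑ sign m_j) * ∑ 1 / m_j < 0` then
`F_n * ∑ 1 / m_j → (∑ sign m_j) * (π / 2) * ∑ 1 / m_j < 0`. -/
def S_EV : Prop := ∀ (k : ℕ) [NeZero k] (m : ZMod k → ℤ), (∀ j, Odd (m j)) →
  (3 ≤ |∑ j, ((m j).sign : ℝ)| ∨ (∑ j, ((m j).sign : ℝ)) * ∑ j, 1 / (m j : ℝ) < 0) →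
  ∃ N : ℕ, ∀ n ≥ N, π < |∑ j, arctan (cot (π / n) / (m j : ℝ))| ∨
    (∑ j, arctan (cot (π / n) / (m j : ℝ))) * ∑ j, 1 / (m j : ℝ) < 0

end Pool.Agent.L7h81.Pm
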