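import Pool.Agent.L7h81.Pm.Alg3
import Pool.Agent.L7h81.Pm.Stm2

set_option autoImplicit false

/-!
# The representations
-/

namespace Pool.Agent.L7h81.Pm

open Matrix Real Pool.Agent.L7h81.Pz CircleDeg1Lift

theorem rr_iff {G : Type*} [Group G] (a b c : G) (l m : ℤ) :
    (a * b⁻¹) ^ (-l - 1) * a * (a * b⁻¹) ^ (l + 1) *
      ((b * c⁻¹) ^ (-m) * c⁻¹ * (b * c⁻¹) ^ m) = 1 ↔ RR l a b = RR m b c := by
  have e1 : (a * b⁻¹) ^ (-l - 1) * a * (a * b⁻¹) ^ (l + 1) = RR l a b * b⁻¹ := by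
    unfold RR
    rw [_root_.zpow_add_one, _root_.zpow_sub_one]; group
  have e2 : (b * c⁻¹) ^ (-m) * c⁻¹ * (b * c⁻¹) ^ m = b * (RR m b c)⁻¹ := by
    unfold RR; group
  rw [e1, e2]
  constructor
  · intro h
    have : RR l a b * (RR m b c)⁻¹ = 1 := by rw [← h]; group
    exact mul_inv_eq_one.1 this
  · intro h
    rw [h]; group

/-- The number `l` with `2 l + 1 = |2 L + 1|`. -/
def lL (L : ℤ) : ℕ := if 0 ≤ L then L.toNat else (-L - 1).toNat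

/-- The sign of `2 L + 1`. -/
noncomputable def eL (L : ℤ) : ℝ := if 0 ≤ L then 1 else -1

theorem eL_cases (L : ℤ) : eL L = 1 ∨ eL L = -1 := by
  unfold eL; split_ifs <;> simp

theorem eL_mul (L : ℤ) : eL L * (2 * (lL L : ℝ) + 1) = 2 * L + 1 := by
  unfold eL lL
  split_ifs with h
  · have h1 : ((L.toNat : ℤ) : ℝ) = L := by rw [Int.toNat_of_nonneg h]
    have h2 : (L.toNat : ℝ) = L := by exact_mod_cast h1
    rw [h2]; ring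
  · have h1 : (((-L - 1).toNat : ℤ) : ℝ) = ((-L - 1 : ℤ) : ℝ) := by
      rw [Int.toNat_of_nonneg (by omega)]
    have h2 : ((-L - 1).toNat : ℝ) = -L - 1 := by
      have : (((-L - 1).toNat : ℤ) : ℝ) = ((-L - 1).toNat : ℝ) := by norm_cast
      rw [← this, h1]; push_cast; ring
    rw [h2]; ring

theorem eL_div (L : ℤ) (c : ℝ) : eL L * (c / (2 * (lL L : ℝ) + 1)) = c / (2 * L + 1) := by
  have h := eL_mul L
  have h0 : (0 : ℝ) < 2 * (lL L : ℝ) + 1 := by positivity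
  rcases eL_cases L with h1 | h1
  · rw [h1, one_mul] at h ⊢
    rw [h]
  · rw [h1] at h ⊢
    rw [← h]
    field_simp

theorem eL_arctan (L : ℤ) (c : ℝ) :
    eL L * arctan (c / (2 * (lL L : ℝ) + 1)) = arctan (c / (2 * L + 1)) := by
  rw [← eL_div]
  rcases eL_cases L with h1 | h1
  · rw [h1]; simp
  · rw [h1, neg_one_mul, neg_one_mul, arctan_neg]

/-- `Γ` as an element of `SL(2, ℝ)`. -/
noncomputable def GS (κ ρ p : ℝ) (hw : (κ ^ 2 - ρ ^ 2) * p = 1 - p) : SLR := ⟨Gm κ ρ p, by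
  unfold Gm
  rw [Matrix.det_fin_two_of]
  linear_combination 4 * p * hw⟩

theorem UU_comm_GS (κ ρ τ p : ℝ) (hw : (κ ^ 2 - ρ ^ 2) * p = 1 - p)
    (hq : 0 < 1 + τ ^ 2 * (κ ^ 2 - ρ ^ 2)) :
    UU κ ρ τ hq * GS κ ρ p hw = GS κ ρ p hw * UU κ ρ τ hq :=
  Subtype.ext (UU_comm κ ρ τ p hq)

theorem column_L {C S κ ρ p : ℝ} (h : C ^ 2 + S ^ 2 = 1) (hS : 0 < S) (hκ : κ * S = C) (hp : 0 < p)
    (hw : (κ ^ 2 - ρ ^ 2) * p = 1 - p) (hρ : 0 < ρ) (L : ℤ) {y : ℝ} (hy : 0 < y)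
    (heq : (1 - (C / cosh y) ^ 2) * cosh ((2 * lL L + 1) * y) ^ 2 = p) :
    0 < 1 + (eL L * tt (lL L) y) ^ 2 * (κ ^ 2 - ρ ^ 2) ∧
    ∀ hq : 0 < 1 + (eL L * tt (lL L) y) ^ 2 * (κ ^ 2 - ρ ^ 2),
      RR L (AA C S h) (UU κ ρ (eL L * tt (lL L) y) hq * AA C S h *
        (UU κ ρ (eL L * tt (lL L) y) hq)⁻¹) = GS κ ρ p hw := by
  obtain ⟨h1, h2⟩ := base_rel h hS hκ hp hw hρ (lL L) hy heq
  have h3 : RR (lL L : ℤ) (AA C S h) (UU κ ρ (tt (lL L) y) h1 * AA C S h *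
      (UU κ ρ (tt (lL L) y) h1)⁻¹) = GS κ ρ p hw := Subtype.ext (h2 h1)
  by_cases hL : 0 ≤ L
  · have e1 : eL L * tt (lL L) y = tt (lL L) y := by simp [eL, hL]
    have e2 : (lL L : ℤ) = L := by
      unfold lL; rw [if_pos hL]; exact Int.toNat_of_nonneg hL
    rw [e1]
    refine ⟨h1, fun hq => ?_⟩
    rw [← h3, e2]
  · have e1 : eL L * tt (lL L) y = -tt (lL L) y := by simp [eL, hL]
    have e2 : (-(lL L : ℤ) - 1) = L := by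
      unfold lL; rw [if_neg hL, Int.toNat_of_nonneg (by omega)]; ring
    rw [e1]
    have h1' : 0 < 1 + (-tt (lL L) y) ^ 2 * (κ ^ 2 - ρ ^ 2) := by rw [neg_sq]; exact h1
    refine ⟨h1', fun hq => ?_⟩
    rw [UU_neg κ ρ (tt (lL L) y) h1 hq]
    set V := UU κ ρ (tt (lL L) y) h1 with hV
    have h4 : V⁻¹ * AA C S h * V⁻¹⁻¹ = V⁻¹ * AA C S h * V := by rw [inv_inv]
    have h5 : RR L (AA C S h) (V⁻¹ * AA C S h * V⁻¹⁻¹) =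
        RR (lL L : ℤ) (V⁻¹ * AA C S h * V⁻¹⁻¹) (AA C S h) := by
      rw [← RR_swap (lL L : ℤ), e2]
    have h6 : RR (lL L : ℤ) (V⁻¹ * AA C S h * V⁻¹⁻¹) (AA C S h) =
        V⁻¹ * RR (lL L : ℤ) (AA C S h) (V * AA C S h * V⁻¹) * V⁻¹⁻¹ := by
      rw [← RR_conj]
      congr 1; group
    have h7 := UU_comm_GS κ ρ (tt (lL L) y) p hw h1
    rw [← hV] at h7
    rw [h5, h6, h3, inv_inv, mul_assoc, ← h7, inv_mul_cancel_left]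

/-- The product of the elements `UU`. -/
noncomputable def VV (κ ρ : ℝ) (τ : ℕ → ℝ) (hq : ∀ i, 0 < 1 + τ i ^ 2 * (κ ^ 2 - ρ ^ 2)) : ℕ → SLR
  | 0 => 1
  | i + 1 => VV κ ρ τ hq i * UU κ ρ (τ i) (hq i)

theorem VV_comm_GS (κ ρ : ℝ) (τ : ℕ → ℝ) (hq : ∀ i, 0 < 1 + τ i ^ 2 * (κ ^ 2 - ρ ^ 2)) (p : ℝ)
    (hw : (κ ^ 2 - ρ ^ 2) * p = 1 - p) (i : ℕ) :
    VV κ ρ τ hq i * GS κ ρ p hw = GS κ ρ p hw * VV κ ρ τ hq i := by
  induction i with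
  | zero => simp [VV]
  | succ i ih =>
    show VV κ ρ τ hq i * UU κ ρ (τ i) (hq i) * GS κ ρ p hw =
      GS κ ρ p hw * (VV κ ρ τ hq i * UU κ ρ (τ i) (hq i))
    rw [mul_assoc, UU_comm_GS, ← mul_assoc, ih, mul_assoc]

/-- `a + b G`. -/
noncomputable def Gab (κ ρ : ℝ) (x : ℝ × ℝ) : Mat :=
  !![x.1 + x.2 * ρ, -(x.2 * κ); x.2 * κ, x.1 - x.2 * ρ]

theorem VV_mat (κ ρ : ℝ) (τ : ℕ → ℝ) (hq : ∀ i, 0 < 1 + τ i ^ 2 * (κ ^ 2 - ρ ^ 2)) (i : ℕ) :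
    ∃ c : ℝ, (VV κ ρ τ hq i : Mat) = c • Gab κ ρ (ab (κ ^ 2 - ρ ^ 2) τ i) := by
  induction i with
  | zero =>
    refine ⟨1, ?_⟩
    show (1 : Mat) = _
    rw [Matrix.one_fin_two]
    ext i j
    fin_cases i <;> fin_cases j <;> simp [Gab, ab]
  | succ i ih =>
    obtain ⟨c, hc⟩ := ih
    refine ⟨c / √(1 + τ i ^ 2 * (κ ^ 2 - ρ ^ 2)), ?_⟩
    show (VV κ ρ τ hq i : Mat) * (UU κ ρ (τ i) (hq i) : Mat) = _
    rw [hc]
    show c • Gab κ ρ (ab (κ ^ 2 - ρ ^ 2) τ i) * !![_, _; _, _] = _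
    set s := √(1 + τ i ^ 2 * (κ ^ 2 - ρ ^ 2)) with hs
    have hs0 : s ≠ 0 := (Real.sqrt_pos.2 (hq i)).ne'
    show _ = (c / s) • Gab κ ρ ((ab (κ ^ 2 - ρ ^ 2) τ i).1 +
      (ab (κ ^ 2 - ρ ^ 2) τ i).2 * τ i * (κ ^ 2 - ρ ^ 2),
      (ab (κ ^ 2 - ρ ^ 2) τ i).2 - (ab (κ ^ 2 - ρ ^ 2) τ i).1 * τ i)
    unfold Gab
    rw [smul_mul_assoc, Matrix.mul_fin_two]
    ext i j
    fin_cases i <;> fin_cases j <;> simp <;> field_simp <;> ring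

theorem VV_closed (κ ρ : ℝ) (τ : ℕ → ℝ) (hq : ∀ i, 0 < 1 + τ i ^ 2 * (κ ^ 2 - ρ ^ 2)) (k : ℕ)
    (hb : (ab (κ ^ 2 - ρ ^ 2) τ k).2 = 0) (A : SLR) :
    VV κ ρ τ hq k * A * (VV κ ρ τ hq k)⁻¹ = A := by
  obtain ⟨c, hc⟩ := VV_mat κ ρ τ hq k
  rw [mul_inv_eq_iff_eq_mul]
  apply Subtype.ext
  show (VV κ ρ τ hq k : Mat) * (A : Mat) = (A : Mat) * (VV κ ρ τ hq k : Mat)
  have h1 : Gab κ ρ (ab (κ ^ 2 - ρ ^ 2) τ k) = (ab (κ ^ 2 - ρ ^ 2) τ k).1 • (1 : Mat) := by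
    unfold Gab
    rw [hb, Matrix.one_fin_two]
    ext i j
    fin_cases i <;> fin_cases j <;> simp
  rw [hc, h1]
  simp

theorem tr_conj (V A : SLR) : ((V * A * V⁻¹ : SLR) : Mat) 0 0 + ((V * A * V⁻¹ : SLR) : Mat) 1 1 =
    (A : Mat) 0 0 + (A : Mat) 1 1 := by
  have h1 : ((V * A * V⁻¹ : SLR) : Mat).trace = (A : Mat).trace := by
    show ((V : Mat) * (A : Mat) * ((V⁻¹ : SLR) : Mat)).trace = _
    rw [Matrix.trace_mul_comm, ← mul_assoc]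
    have : ((V⁻¹ : SLR) : Mat) * (V : Mat) = 1 := by
      have : V⁻¹ * V = 1 := inv_mul_cancel V
      exact congrArg Subtype.val this
    rw [this, one_mul]
  simpa [Matrix.trace_fin_two] using h1

theorem turn_conj (V : SLR) {C S : ℝ} (h : C ^ 2 + S ^ 2 = 1) (hS : 0 < S) :
    ((V * AA C S h * V⁻¹ : SLR) : Mat) 0 1 < ((V * AA C S h * V⁻¹ : SLR) : Mat) 1 0 := by
  have hV : (V : Mat) 0 0 * (V : Mat) 1 1 - (V : Mat) 0 1 * (V : Mat) 1 0 = 1 := by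
    have := V.2
    rwa [Matrix.det_fin_two] at this
  have e1 : ((V * AA C S h * V⁻¹ : SLR) : Mat) =
      (V : Mat) * !![C, -S; S, C] * !![(V : Mat) 1 1, -(V : Mat) 0 1; -(V : Mat) 1 0, (V : Mat) 0 0] := by
    show (V : Mat) * !![C, -S; S, C] * ((V⁻¹ : SLR) : Mat) = _
    rw [Matrix.SpecialLinearGroup.SL2_inv_expl]
    rfl
  rw [e1]
  simp [Matrix.mul_apply, Fin.sum_univ_two]
  have h0 : (V : Mat) 0 0 ≠ 0 ∨ (V : Mat) 0 1 ≠ 0 := by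
    by_contra hc
    push Not at hc
    rw [hc.1, hc.2] at hV
    norm_num at hV
  have h1 : 0 < (V : Mat) 0 0 ^ 2 + (V : Mat) 0 1 ^ 2 := by
    rcases h0 with h0 | h0 <;> positivity
  nlinarith [mul_pos hS h1, mul_nonneg hS.le (sq_nonneg ((V : Mat) 1 0)),
    mul_nonneg hS.le (sq_nonneg ((V : Mat) 1 1))]

theorem UU_ne {C S κ ρ τ : ℝ} (h : C ^ 2 + S ^ 2 = 1) (hS : 0 < S) (hρ : 0 < ρ) (hτ : τ ≠ 0)
    (hq : 0 < 1 + τ ^ 2 * (κ ^ 2 - ρ ^ 2)) :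
    UU κ ρ τ hq * AA C S h * (UU κ ρ τ hq)⁻¹ ≠ AA C S h := by
  intro he
  rw [mul_inv_eq_iff_eq_mul] at he
  have h1 : (UU κ ρ τ hq : Mat) * (AA C S h : Mat) = (AA C S h : Mat) * (UU κ ρ τ hq : Mat) :=
    congrArg Subtype.val he
  have h2 : !![(1 - τ * ρ) / √(1 + τ ^ 2 * (κ ^ 2 - ρ ^ 2)), τ * κ / √(1 + τ ^ 2 * (κ ^ 2 - ρ ^ 2));
      -(τ * κ) / √(1 + τ ^ 2 * (κ ^ 2 - ρ ^ 2)), (1 + τ * ρ) / √(1 + τ ^ 2 * (κ ^ 2 - ρ ^ 2))] *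
      !![C, -S; S, C] = !![C, -S; S, C] *
      !![(1 - τ * ρ) / √(1 + τ ^ 2 * (κ ^ 2 - ρ ^ 2)), τ * κ / √(1 + τ ^ 2 * (κ ^ 2 - ρ ^ 2));
      -(τ * κ) / √(1 + τ ^ 2 * (κ ^ 2 - ρ ^ 2)), (1 + τ * ρ) / √(1 + τ ^ 2 * (κ ^ 2 - ρ ^ 2))] := h1
  have h0 : √(1 + τ ^ 2 * (κ ^ 2 - ρ ^ 2)) ≠ 0 := (Real.sqrt_pos.2 hq).ne'
  rw [Matrix.mul_fin_two, Matrix.mul_fin_two] at h2
  have h3 := congrFun (congrFun h2 0) 1
  simp at h3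
  field_simp at h3
  have h4 : S * (τ * ρ) = 0 := by linear_combination h3 / 2
  have h5 : S * (τ * ρ) ≠ 0 := by positivity
  exact h5 h4

theorem lifts_ne {a : CircleDeg1Liftˣ} {A B : SLR} {C : ℝ} (hC : 0 < C) (hA : (a, A) ∈ Lp)
    (hB : (a, B) ∈ Lp) (tA : (A : Mat) 0 0 + (A : Mat) 1 1 = 2 * C)
    (tB : (B : Mat) 0 0 + (B : Mat) 1 1 = 2 * C) : A = B := by
  have m := Lp_mul hA (Lp_inv hB)
  rw [mul_inv_cancel] at m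
  have m' : Lifts 1 ((A * B⁻¹ : SLR) : Matrix (Fin 2) (Fin 2) ℝ) := m
  obtain ⟨s1, s2, s3⟩ := scalar_of_lifts_one m'
  set M := ((A * B⁻¹ : SLR) : Matrix (Fin 2) (Fin 2) ℝ) with hM
  have hMA : M * (B : Matrix (Fin 2) (Fin 2) ℝ) = (A : Matrix (Fin 2) (Fin 2) ℝ) := by
    have : (A * B⁻¹) * B = A := by group
    exact congrArg Subtype.val this
  have hMs : M = (M 0 0) • (1 : Mat) := by
    ext i j
    fin_cases i <;> fin_cases j <;> simp [s1, s2, s3]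
  rw [hMs, smul_mul_assoc, one_mul] at hMA
  have q00 := congrFun (congrFun hMA 0) 0
  have q11 := congrFun (congrFun hMA 1) 1
  simp at q00 q11
  have h1 : M 0 0 * (2 * C) = 1 * (2 * C) := by
    rw [← tB, mul_add, q00, q11, tA, tB]; ring
  have h2 : M 0 0 = 1 := mul_right_cancel₀ (by positivity) h1
  rw [h2, one_smul] at hMA
  exact Subtype.ext hMA.symm

end Pool.Agent.L7h81.Pm
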