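import Pool.Agent.L7h81.Pm.Rep

set_option autoImplicit false

/-!
# The representations: the family of meridians
-/

namespace Pool.Agent.L7h81.Pm

open Matrix Real Pool.Agent.L7h81.Pz CircleDeg1Lift

theorem rep_p (hLIFT : S_LIFT) {k : ℕ} [NeZero k] (n : ℕ) (hn : n ≠ 0) {C S : ℝ} (hC : 0 < C)
    (hS : 0 < S) (h1 : C ^ 2 + S ^ 2 = 1) (hCd : C = cos (π / n)) (hSd : S = sin (π / n))
    (L : ℕ → ℤ) {p : ℝ} (hp : S ^ 2 < p)
    (hb : (ab ((1 - p) / p) (ta hC hS h1 (fun i => lL (L i)) (fun i => eL (L i)) p) k).2 = 0) :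
    ∃ a : ZMod k → CircleDeg1Liftˣ,
      (∀ j, RR (L j.val) (a j) (a (j + 1)) = RR (L (j + 1).val) (a (j + 1)) (a (j + 1 + 1))) ∧
      (∀ j, a j ^ n = translate (Multiplicative.ofAdd 1)) ∧ ∀ j, a j ≠ a (j + 1) := by
  have hp0 : 0 < p := (by positivity : (0 : ℝ) ≤ S ^ 2).trans_lt hp
  set κ := C / S with hκd
  have hκ : κ * S = C := by rw [hκd]; field_simp
  have hρ2 : 0 < κ ^ 2 - (1 - p) / p := by
    have : κ ^ 2 - (1 - p) / p = (p - S ^ 2) / (S ^ 2 * p) := by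
      rw [hκd]; field_simp; linear_combination p * h1
    rw [this]
    have : 0 < p - S ^ 2 := by linarith
    positivity
  set ρ := √(κ ^ 2 - (1 - p) / p) with hρd
  have hρ : 0 < ρ := Real.sqrt_pos.2 hρ2
  have hρs : ρ ^ 2 = κ ^ 2 - (1 - p) / p := Real.sq_sqrt hρ2.le
  have hww : κ ^ 2 - ρ ^ 2 = (1 - p) / p := by rw [hρs]; ring
  have hw : (κ ^ 2 - ρ ^ 2) * p = 1 - p := by rw [hww]; field_simp
  set y : ℕ → ℝ := fun i => yy hC hS h1 (lL (L i)) p with hy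
  have hy0 : ∀ i, 0 < y i := fun i => yy_pos hC hS h1 _ hp
  have hcol := fun i => column_L h1 hS hκ hp0 hw hρ (L i) (hy0 i) (FF_yy hC hS h1 (lL (L i)) hp)
  set τ : ℕ → ℝ := fun i => eL (L i) * tt (lL (L i)) (y i) with hτ
  have hτ0 : ∀ i, τ i ≠ 0 := by
    intro i
    have h2 := tt_pos (lL (L i)) (hy0 i)
    rcases eL_cases (L i) with h3 | h3
    · simp only [hτ, h3, one_mul]; exact h2.ne'
    · simp only [hτ, h3]; intro h4; linarith
  have hq : ∀ i, 0 < 1 + τ i ^ 2 * (κ ^ 2 - ρ ^ 2) := fun i => (hcol i).1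
  set V := VV κ ρ τ hq with hV
  set A := AA C S h1 with hA
  have hb' : (ab (κ ^ 2 - ρ ^ 2) τ k).2 = 0 := by rw [hww]; exact hb
  have hVk : V k * A * (V k)⁻¹ = A := VV_closed κ ρ τ hq k hb' A
  set Af : ℕ → SLR := fun i => V i * A * (V i)⁻¹ with hAf
  have hstep : ∀ i, RR (L i) (Af i) (Af (i + 1)) = GS κ ρ p hw := by
    intro i
    have e1 : Af (i + 1) = V i * (UU κ ρ (τ i) (hq i) * A * (UU κ ρ (τ i) (hq i))⁻¹) * (V i)⁻¹ := by
      show (V i * UU κ ρ (τ i) (hq i)) * A * (V i * UU κ ρ (τ i) (hq i))⁻¹ = _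
      group
    rw [e1]
    show RR (L i) (V i * A * (V i)⁻¹) _ = _
    rw [RR_conj, (hcol i).2 (hq i), VV_comm_GS, mul_inv_cancel_right]
  have hne : ∀ i, Af i ≠ Af (i + 1) := by
    intro i he
    have e1 : Af (i + 1) = V i * (UU κ ρ (τ i) (hq i) * A * (UU κ ρ (τ i) (hq i))⁻¹) * (V i)⁻¹ := by
      show (V i * UU κ ρ (τ i) (hq i)) * A * (V i * UU κ ρ (τ i) (hq i))⁻¹ = _
      group
    rw [e1] at he
    have he' : V i * A * (V i)⁻¹ =
      V i * (UU κ ρ (τ i) (hq i) * A * (UU κ ρ (τ i) (hq i))⁻¹) * (V i)⁻¹ := he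
    have h2 := mul_left_cancel (mul_right_cancel he')
    exact UU_ne h1 hS hρ (hτ0 i) (hq i) h2.symm
  have htr : ∀ i, (Af i : Mat) 0 0 + (Af i : Mat) 1 1 = 2 * C := by
    intro i
    have h2 := tr_conj (V i) A
    have h3 : (A : Mat) 0 0 + (A : Mat) 1 1 = 2 * C := by
      show C + C = _; ring
    rw [h3] at h2
    exact h2
  -- cyclic indices
  have hcyc : ∀ j : ZMod k, Af (j + 1).val = Af (j.val + 1) := by
    intro j
    have e2 : (j + 1).val = (j.val + 1) % k := by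
      have : (j + 1) = ((j.val + 1 : ℕ) : ZMod k) := by
        push_cast; rw [ZMod.natCast_zmod_val]
      rw [this, ZMod.val_natCast]
    rw [e2]
    rcases (Nat.succ_le_of_lt (ZMod.val_lt j)).lt_or_eq with hlt | heq
    · rw [Nat.mod_eq_of_lt hlt]
    · have e3 : j.val + 1 = k := heq
      rw [e3, Nat.mod_self]
      show V 0 * A * (V 0)⁻¹ = V k * A * (V k)⁻¹
      rw [hVk]
      show (1 : SLR) * A * 1⁻¹ = A
      group
  have hS' : 0 < sin (π / n) := hSd ▸ hS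
  choose u hu using fun j : ZMod k => hLIFT n hn hS' (Af j.val) (by rw [htr, hCd])
    (turn_conj (V j.val) h1 hS)
  set a : ZMod k → CircleDeg1Liftˣ := fun j => u j * rt n * (u j)⁻¹ with ha
  have hLa : ∀ j, (a j, Af j.val) ∈ Lp := hu
  have hτa : ∀ j, translationNumber ((a j : CircleDeg1Liftˣ) : CircleDeg1Lift) =
      translationNumber ((rt n : CircleDeg1Liftˣ) : CircleDeg1Lift) := fun j => tau_conj _ _
  have hcol' : ∀ j : ZMod k, RR (L j.val) (Af j.val) (Af (j + 1).val) = GS κ ρ p hw := by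
    intro j
    rw [hcyc]; exact hstep _
  refine ⟨a, fun j => ?_, fun j => ?_, fun j => ?_⟩
  · rw [← rr_iff]
    exact lift_rel (hLa j) (hLa (j + 1)) (hLa (j + 1 + 1))
      ((hτa j).trans (hτa (j + 1 + 1)).symm) (two_columns (hcol' j) (hcol' (j + 1)))
  · show (u j * rt n * (u j)⁻¹) ^ n = _
    rw [conj_pow, rt_pow hn, translate_one_comm, mul_inv_cancel_right]
  · intro he
    have h2 := hLa (j + 1)
    rw [← he] at h2
    have h3 := lifts_ne hC (hLa j) h2 (htr _) (htr _)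
    rw [hcyc] at h3
    exact hne _ h3

end Pool.Agent.L7h81.Pm
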