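import Pool.Agent.L7h81.Pm.Rep2

set_option autoImplicit false

/-!
# The representations for all signs
-/

namespace Pool.Agent.L7h81.Pm

open Matrix Real Pool.Agent.L7h81.Pz CircleDeg1Lift

/-- There is a parameter for which the family of meridians closes up. -/
theorem sol (hH : S_HIGH) (hL : S_LOW) (hCt : S_CONT) {C S : ℝ} (hC : 0 < C) (hS : 0 < S)
    (h1 : C ^ 2 + S ^ 2 = 1) (k : ℕ) (l : ℕ → ℕ) (ε : ℕ → ℝ) (hε : ∀ i, ε i = 1 ∨ ε i = -1)
    (hF : 0 < ∑ i ∈ Finset.range k, ε i * arctan (C / S / (2 * l i + 1)))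
    (hcond : π < ∑ i ∈ Finset.range k, ε i * arctan (C / S / (2 * l i + 1)) ∨
      ∑ i ∈ Finset.range k, ε i / (2 * l i + 1) < 0) :
    ∃ p : ℝ, S ^ 2 < p ∧ (ab ((1 - p) / p) (ta hC hS h1 l ε p) k).2 = 0 := by
  obtain ⟨hL1, hL2⟩ := hL C S hC hS h1 k l ε hε hF
  rcases lt_or_ge π (∑ i ∈ Finset.range k, ε i * arctan (C / S / (2 * l i + 1))) with h | h
  · exact hL1 h
  · obtain ⟨p1, hp1, hp1', hb1⟩ := hL2 h
    rcases hcond with h' | h'
    · exact absurd h (not_le.2 h')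
    obtain ⟨p2, hp2, hb2⟩ := hH C S hC hS h1 k l ε hε h'
    have hcont := hCt C S hC hS h1 k l ε
    have hp12 : p1 ≤ p2 := by linarith
    have hcont' : ContinuousOn (fun p : ℝ => (ab ((1 - p) / p) (ta hC hS h1 l ε p) k).2)
        (Set.Icc p1 p2) := hcont.mono fun p hp => hp1.trans_le hp.1
    obtain ⟨p, hp, hpe⟩ := intermediate_value_Icc hp12 hcont' ⟨hb1.le, hb2.le⟩
    exact ⟨p, hp1.trans_le hp.1, hpe⟩

theorem sum_range_zmod {k : ℕ} [NeZero k] (f : ZMod k → ℝ) :
    ∑ i ∈ Finset.range k, f (i : ZMod k) = ∑ j, f j := by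
  refine Finset.sum_nbij' (fun i => (i : ZMod k)) (fun j => j.val) ?_ ?_ ?_ ?_ ?_
  · intro i _; exact Finset.mem_univ _
  · intro j _; exact Finset.mem_range.2 (ZMod.val_lt j)
  · intro i hi; exact ZMod.val_cast_of_lt (Finset.mem_range.1 hi)
  · intro j _; exact ZMod.natCast_zmod_val j
  · intro i _; rfl

theorem cot_small {n : ℕ} (hn : n < 3) : cot (π / n) = 0 := by
  rw [cot_eq_cos_div_sin]
  have : n = 0 ∨ n = 1 ∨ n = 2 := by omega
  rcases this with rfl | rfl | rfl <;> simp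

theorem rep_pos (hH : S_HIGH) (hL : S_LOW) (hCt : S_CONT) (hLIFT : S_LIFT) {k : ℕ} [NeZero k]
    (n : ℕ) (L : ZMod k → ℤ) (hF : 0 < ∑ j, arctan (cot (π / n) / (2 * L j + 1)))
    (hcond : π < ∑ j, arctan (cot (π / n) / (2 * L j + 1)) ∨ ∑ j, 1 / (2 * (L j : ℝ) + 1) < 0) :
    ∃ a : ZMod k → CircleDeg1Liftˣ,
      (∀ j, RR (L j) (a j) (a (j + 1)) = RR (L (j + 1)) (a (j + 1)) (a (j + 1 + 1))) ∧
      (∀ j, a j ^ n = translate (Multiplicative.ofAdd 1)) ∧ ∀ j, a j ≠ a (j + 1) := by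
  have hn : 3 ≤ n := by
    by_contra hlt
    rw [cot_small (by omega)] at hF
    simp at hF
  have hn0 : n ≠ 0 := by omega
  have hnr : (3 : ℝ) ≤ n := by exact_mod_cast hn
  have hpn : 0 < π / n := div_pos pi_pos (by linarith)
  have hpn2 : π / n < π / 2 := by
    have := pi_pos
    apply div_lt_div_of_pos_left this (by norm_num) (by linarith)
  have hC : 0 < cos (π / n) := cos_pos_of_mem_Ioo ⟨by linarith, hpn2⟩
  have hS : 0 < sin (π / n) := sin_pos_of_pos_of_lt_pi hpn (by linarith [pi_pos])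
  have hCS : cos (π / n) ^ 2 + sin (π / n) ^ 2 = 1 := cos_sq_add_sin_sq _
  have hcot : cot (π / n) = cos (π / n) / sin (π / n) := cot_eq_cos_div_sin _
  have e1 : ∑ i ∈ Finset.range k, eL (L (i : ZMod k)) *
      arctan (cos (π / n) / sin (π / n) / (2 * lL (L (i : ZMod k)) + 1)) =
      ∑ j, arctan (cot (π / n) / (2 * L j + 1)) := by
    rw [sum_range_zmod (fun j => eL (L j) *
      arctan (cos (π / n) / sin (π / n) / (2 * lL (L j) + 1)))]
    refine Finset.sum_congr rfl fun j _ => ?_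
    rw [eL_arctan, hcot]
  have e2 : ∑ i ∈ Finset.range k, eL (L (i : ZMod k)) / (2 * lL (L (i : ZMod k)) + 1) =
      ∑ j, 1 / (2 * (L j : ℝ) + 1) := by
    rw [sum_range_zmod (fun j => eL (L j) / (2 * lL (L j) + 1))]
    refine Finset.sum_congr rfl fun j _ => ?_
    rw [← eL_div, mul_one_div]
  obtain ⟨p, hp, hb⟩ := sol hH hL hCt hC hS hCS k (fun i => lL (L (i : ZMod k)))
    (fun i => eL (L (i : ZMod k))) (fun i => eL_cases _) (by rw [e1]; exact hF)
    (by rw [e1, e2]; exact hcond)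
  obtain ⟨a, ha1, ha2, ha3⟩ := rep_p hLIFT n hn0 hC hS hCS rfl rfl (fun i => L (i : ZMod k)) hp hb
  refine ⟨a, fun j => ?_, ha2, ha3⟩
  have := ha1 j
  rwa [ZMod.natCast_zmod_val, ZMod.natCast_zmod_val] at this

theorem rep_any (hH : S_HIGH) (hL : S_LOW) (hCt : S_CONT) (hLIFT : S_LIFT) {k : ℕ} [NeZero k]
    (n : ℕ) (L : ZMod k → ℤ)
    (hcond : π < |∑ j, arctan (cot (π / n) / (2 * L j + 1))| ∨
      (∑ j, arctan (cot (π / n) / (2 * L j + 1))) * ∑ j, 1 / (2 * (L j : ℝ) + 1) < 0) :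
    ∃ a : ZMod k → CircleDeg1Liftˣ,
      (∀ j, RR (L j) (a j) (a (j + 1)) = RR (L (j + 1)) (a (j + 1)) (a (j + 1 + 1))) ∧
      (∀ j, a j ^ n = translate (Multiplicative.ofAdd 1)) ∧ ∀ j, a j ≠ a (j + 1) := by
  rcases lt_trichotomy (∑ j, arctan (cot (π / n) / (2 * L j + 1))) 0 with h | h | h
  · -- reverse the order
    set L' : ZMod k → ℤ := fun j => -L (-j - 1) - 1 with hL'
    have hcast : ∀ j, 2 * (L' j : ℝ) + 1 = -(2 * (L (-j - 1) : ℝ) + 1) := by
      intro j; simp only [hL']; push_cast; ring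
    let e : ZMod k ≃ ZMod k := (Equiv.neg (ZMod k)).trans (Equiv.subRight 1)
    have he : ∀ j, e j = -j - 1 := fun j => rfl
    have e1 : ∑ j, arctan (cot (π / n) / (2 * L' j + 1)) =
        -∑ j, arctan (cot (π / n) / (2 * L j + 1)) := by
      rw [← Finset.sum_neg_distrib, ← Equiv.sum_comp e]
      refine Finset.sum_congr rfl fun j _ => ?_
      have t : -(-j - 1) - 1 = j := by ring
      rw [hcast, he, div_neg, arctan_neg, t]
    have e2 : ∑ j, 1 / (2 * (L' j : ℝ) + 1) = -∑ j, 1 / (2 * (L j : ℝ) + 1) := by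
      rw [← Finset.sum_neg_distrib, ← Equiv.sum_comp e]
      refine Finset.sum_congr rfl fun j _ => ?_
      have t : -(-j - 1) - 1 = j := by ring
      rw [hcast, he, div_neg, t]
    obtain ⟨a, ha1, ha2, ha3⟩ := rep_pos hH hL hCt hLIFT n L' (by rw [e1]; linarith) (by
      rw [e1, e2]
      rcases hcond with h' | h'
      · left; rwa [abs_of_neg h] at h'
      · right
        have := (pos_iff_pos_of_mul_pos (a := -(∑ j, arctan (cot (π / n) / (2 * L j + 1))))
          (b := ∑ j, 1 / (2 * (L j : ℝ) + 1)) (by linarith)).1 (by linarith)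
        linarith)
    refine ⟨fun j => a (-j), fun j => ?_, fun j => ha2 _, fun j => ?_⟩
    · have s1 : ∀ j, RR (L j) (a (-j)) (a (-(j + 1))) = RR (L' (-j - 1)) (a (-j - 1)) (a (-j)) := by
        intro j
        rw [← RR_swap (L' (-j - 1))]
        have t1 : -L' (-j - 1) - 1 = L j := by
          simp only [hL']
          have : -(-j - 1) - 1 = j := by ring
          rw [this]; ring
        have t2 : -(j + 1) = -j - 1 := by ring
        rw [t1, t2]
      show RR (L j) (a (-j)) (a (-(j + 1))) = RR (L (j + 1)) (a (-(j + 1))) (a (-(j + 1 + 1)))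
      rw [s1 j, s1 (j + 1)]
      have := ha1 (-(j + 1) - 1)
      have t3 : -(j + 1) - 1 + 1 = -j - 1 := by ring
      have t4 : -j - 1 + 1 = -j := by ring
      have t5 : -(j + 1) = -j - 1 := by ring
      rw [t3, t4] at this
      rw [this.symm, t5]
    · have := ha3 (-(j + 1))
      have t4 : -(j + 1) + 1 = -j := by ring
      rw [t4] at this
      exact this.symm
  · exfalso
    rw [h] at hcond
    rcases hcond with h' | h'
    · rw [abs_zero] at h'; linarith [pi_pos]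
    · rw [zero_mul] at h'; exact lt_irrefl _ h'
  · refine rep_pos hH hL hCt hLIFT n L h ?_
    rcases hcond with h' | h'
    · left; rwa [abs_of_pos h] at h'
    · right
      by_contra h2
      push Not at h2
      exact absurd h' (not_lt.2 (mul_nonneg h.le h2))

end Pool.Agent.L7h81.Pm
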